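import Pool.Agent.Helper60.EN.Swan
import Pool.Agent.Helper20.SE.S29

/-!
Project EN (MP_9d9192_al): a `PD_3`-group without virtual epimorphisms onto `ℤ` is orientable.
-/

set_option autoImplicit false

namespace Pool.ACH

variable {G : Type} [Group G] {P0 P1 P2 P3 : Type} [AddCommGroup P0] [AddCommGroup P1]
    [AddCommGroup P2] [AddCommGroup P3] [DistribMulAction G P0] [DistribMulAction G P1]
    [DistribMulAction G P2] [DistribMulAction G P3]

/-- The subgroup of all elements preserving the orientation; it is everything or has index two. -/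
theorem PD3Pre.exists_ker (D : PD3Pre G P0 P1 P2 P3) :
    ∃ N : Subgroup G,
      (∀ g, g ∈ N ↔ ∃ c : P2 →+ ℤ, IsFs G c ∧ ∀ p, D.z (g • p) = D.z p + c (D.d2 p)) ∧
      (∀ t, t ∉ N → N.index = 2 ∧
        ∃ c : P2 →+ ℤ, IsFs G c ∧ ∀ p, D.z (t • p) = -D.z p + c (D.d2 p)) := by
  let N : Subgroup G :=
    { carrier := {g | ∃ c : P2 →+ ℤ, IsFs G c ∧ ∀ p, D.z (g • p) = D.z p + c (D.d2 p)}
      one_mem' := ⟨0, IsFs.zero, fun p => by simp⟩
      mul_mem' := by
        rintro g h ⟨c, hc, h1⟩ ⟨c', hc', h2⟩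
        refine ⟨c' + rt h c, hc'.add (hc.rt h), fun p => ?_⟩
        rw [mul_smul, h1, h2, D.d2_smul, AddMonoidHom.add_apply, rt_apply]
        ring
      inv_mem' := by
        rintro g ⟨c, hc, h1⟩
        refine ⟨-rt g⁻¹ c, (hc.rt g⁻¹).neg, fun p => ?_⟩
        have h2 := h1 (g⁻¹ • p)
        rw [smul_inv_smul, D.d2_smul] at h2
        rw [AddMonoidHom.neg_apply, rt_apply]
        linarith }
  have hmem : ∀ g : G, g ∈ N ↔
      ∃ c : P2 →+ ℤ, IsFs G c ∧ ∀ p, D.z (g • p) = D.z p + c (D.d2 p) := fun g => Iff.rfl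
  have hneg : ∀ g : G, g ∉ N → ∃ c : P2 →+ ℤ, IsFs G c ∧
      ∀ p, D.z (g • p) = -D.z p + c (D.d2 p) := by
    intro g hg
    obtain ⟨w, c, hw, hc, h1⟩ := D.sign g
    rcases hw with rfl | rfl
    · exfalso
      refine hg ⟨c, hc, fun p => ?_⟩
      rw [h1, one_mul]
    · refine ⟨c, hc, fun p => ?_⟩
      rw [h1]
      ring
  have hprod : ∀ g a : G, g ∉ N → a ∉ N → g * a ∈ N := by
    intro g a hg ha
    obtain ⟨c, hc, h1⟩ := hneg g hg
    obtain ⟨c', hc', h2⟩ := hneg a ha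
    refine ⟨-c' + rt a c, hc'.neg.add (hc.rt a), fun p => ?_⟩
    rw [mul_smul, h1, h2, D.d2_smul, AddMonoidHom.add_apply, AddMonoidHom.neg_apply, rt_apply]
    ring
  refine ⟨N, hmem, fun t ht => ⟨?_, hneg t ht⟩⟩
  rw [Subgroup.index_eq_two_iff]
  refine ⟨t, fun b => ?_⟩
  by_cases hb : b ∈ N
  · right
    refine ⟨hb, fun h => ht ?_⟩
    have := N.mul_mem (N.inv_mem hb) h
    rwa [inv_mul_cancel_left] at this
  · left
    exact ⟨hprod b t hb ht, hb⟩

/-- Without virtual epimorphisms onto `ℤ` the group is orientable. -/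
theorem PD3Pre.orientable (D : PD3Pre G P0 P1 P2 P3) (hF : FAb G) (g : G) :
    ∃ c : P2 →+ ℤ, IsFs G c ∧ ∀ p, D.z (g • p) = D.z p + c (D.d2 p) := by
  obtain ⟨N, hN, hN2⟩ := D.exists_ker
  by_contra hcon
  have ht : g ∉ N := fun h => hcon ((hN g).1 h)
  obtain ⟨hi, c, hc, hz⟩ := hN2 g ht
  have hi0 : N.index ≠ 0 := by rw [hi]; exact two_ne_zero
  have hNn : N.Normal := Subgroup.normal_of_index_eq_two hi
  let D' : PD3Data N P0 P1 P2 P3 := D.restrictData N hi0 (fun x hx => (hN x).1 hx)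
  let θ : N ≃* N := MulAut.conjNormal g
  have hθ : ∀ x : N, ((θ x : N) : G) = g * x * g⁻¹ := fun x => MulAut.conjNormal_apply g x
  have hsm : ∀ (P : Type) [AddCommGroup P] [DistribMulAction G P] (x : N) (p : P),
      (DistribSMul.toAddMonoidHom P g) (x • p) =
        (θ : N →* N) x • (DistribSMul.toAddMonoidHom P g) p := by
    intro P _ _ x p
    change g • (x : G) • p = ((θ x : N) : G) • g • p
    rw [hθ, smul_smul, smul_smul, inv_mul_cancel_right]
  let E : CM D' (θ : N →* N) :=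
    { F0 := DistribSMul.toAddMonoidHom P0 g
      F1 := DistribSMul.toAddMonoidHom P1 g
      F2 := DistribSMul.toAddMonoidHom P2 g
      F3 := DistribSMul.toAddMonoidHom P3 g
      F0_smul := hsm P0
      F1_smul := hsm P1
      F2_smul := hsm P2
      F3_smul := hsm P3
      ε_F0 := fun p => D.ε_smul g p
      comm0 := fun p => (D.d0_smul g p).symm
      comm1 := fun p => (D.d1_smul g p).symm
      comm2 := fun p => (D.d2_smul g p).symm }
  have hcN : IsFs N c := hc.restrict N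
  have hE : E.HasDeg (-1) := by
    refine ⟨tw c hcN (fun _ => (1 : ℚ)), tw_inv _ _ _, fun p => ?_⟩
    have hz1 : IsFs N (D'.z.comp E.F3) := D'.z_fs.comp_semi θ E.F3 (hsm P3)
    have h1 : D'.nu (E.F3 p) = tw (D'.z.comp E.F3) hz1 (fun _ => (1 : ℚ)) p :=
      tw_comp_semi D'.z D'.z_fs θ E.F3 (hsm P3) hz1 (fun _ => (1 : ℚ)) p
    have h2 : D'.z.comp E.F3 = -D'.z + c.comp D'.d2 := by
      ext q
      exact hz q
    have h3 : IsFs N (c.comp D'.d2) := hcN.comp D'.d2 D'.d2_smul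
    have h4 : tw (D'.z.comp E.F3) hz1 (fun _ => (1 : ℚ)) p =
        tw (-D'.z) D'.z_fs.neg (fun _ => (1 : ℚ)) p +
          tw (c.comp D'.d2) h3 (fun _ => (1 : ℚ)) p := by
      rw [tw_congr h2 hz1 (D'.z_fs.neg.add h3), tw_add_left D'.z_fs.neg h3,
        AddMonoidHom.add_apply]
    rw [h1, h4, tw_neg_left D'.z_fs, AddMonoidHom.neg_apply,
      tw_comp c hcN D'.d2 D'.d2_smul h3]
    change -D'.nu p + _ = -1 * D'.nu p + _
    ring
  have h1 := E.lefschetz (-1) hE (hF N hi0)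
  have h2 := trace_swap D.b0 N hi g ht (θ : N →* N) E.F0 E.F0_smul (fun _ => rfl)
  have h3 := trace_swap D.b1 N hi g ht (θ : N →* N) E.F1 E.F1_smul (fun _ => rfl)
  have h4 := trace_swap D.b2 N hi g ht (θ : N →* N) E.F2 E.F2_smul (fun _ => rfl)
  have h5 := trace_swap D.b3 N hi g ht (θ : N →* N) E.F3 E.F3_smul (fun _ => rfl)
  rw [h2, h3, h4, h5] at h1
  norm_num at h1

end Pool.ACH
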