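import Pool.Agent.Helper60.EN.Nil
import Pool.Agent.Helper20.SE.S17

/-!
Project EN (MP_9d9192_al): endomorphisms with image of finite index and degree different from
`1` and `-1`; the finite quotients of prime power order are bounded.
-/

set_option autoImplicit false

namespace Pool.ACH

variable {G : Type} [Group G]

/-- The image of `f` has finite index and the degree `d` of `f` is not `1` or `-1`. -/
def FDeg (G : Type) [Group G] (f : G →* G) (d : ℤ) : Prop :=
  Deg G f (d : ℚ) ∧ f.range.index ≠ 0 ∧ |d| ≠ 1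

theorem FDeg.fg {f : G →* G} {d : ℤ} (h : FDeg G f d) : Group.FG G := h.1.fg

theorem FDeg.conj {f : G →* G} {d : ℤ} (h : FDeg G f d) (g : G) : FDeg G (conjEnd g f) d := by
  refine ⟨h.1.conj g, ?_, h.2.2⟩
  have h1 : (conjEnd g f).range = f.range.map (MulAut.conj g).toMonoidHom :=
    (MonoidHom.map_range (MulAut.conj g).toMonoidHom f).symm
  have h2 : (f.range.map (MulAut.conj g).toMonoidHom).index = f.range.index :=
    Subgroup.index_map_equiv f.range (MulAut.conj g)
  rw [h1, h2]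
  exact h.2.1

theorem map_index_ne {f : G →* G} (hf : f.range.index ≠ 0) (H : Subgroup G) (hH : H.index ≠ 0) :
    (H.map f).index ≠ 0 := by
  rw [Subgroup.index_map]
  refine mul_ne_zero ?_ hf
  exact ne_zero_of_dvd_ne_zero hH (Subgroup.index_dvd_of_le le_sup_left)

theorem res_index_ne {f : G →* G} (hf : f.range.index ≠ 0) (H : Subgroup G) (hH : H.index ≠ 0)
    (h : ∀ g ∈ H, f g ∈ H) : (resEnd f H h).range.index ≠ 0 := by
  have h1 : (resEnd f H h).range.map H.subtype = H.map f := by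
    ext x
    constructor
    · rintro ⟨y, ⟨z, rfl⟩, rfl⟩
      exact ⟨z, z.2, rfl⟩
    · rintro ⟨y, hy, rfl⟩
      exact ⟨resEnd f H h ⟨y, hy⟩, ⟨⟨y, hy⟩, rfl⟩, rfl⟩
  have h2 := Subgroup.index_map_subtype (resEnd f H h).range
  rw [h1] at h2
  intro h0
  rw [h0, zero_mul] at h2
  exact map_index_ne hf H hH h2

theorem FDeg.restrict {f : G →* G} {d : ℤ} (hd : FDeg G f d) (H : Subgroup G)
    (hH : H.index ≠ 0) (h : ∀ g ∈ H, f g ∈ H) : FDeg H (resEnd f H h) d :=
  ⟨hd.1.restrict H hH h, res_index_ne hd.2.1 H hH h, hd.2.2⟩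

theorem pow_index_ne {f : Monoid.End G} (hf : (MonoidHom.range (f : G →* G)).index ≠ 0)
    (n : ℕ) : (MonoidHom.range ((f ^ n : Monoid.End G) : G →* G)).index ≠ 0 := by
  induction n with
  | zero =>
    have h0 : MonoidHom.range ((f ^ 0 : Monoid.End G) : G →* G) = ⊤ := by
      rw [pow_zero]
      exact MonoidHom.range_eq_top.2 fun x => ⟨x, rfl⟩
    rw [h0, Subgroup.index_top]
    exact one_ne_zero
  | succ n ih =>
    have h1 : MonoidHom.range ((f ^ (n + 1) : Monoid.End G) : G →* G) =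
        (MonoidHom.range ((f ^ n : Monoid.End G) : G →* G)).map (f : G →* G) := by
      rw [pow_succ']
      exact MonoidHom.range_comp f (f ^ n : Monoid.End G)
    rw [h1]
    exact map_index_ne hf _ ih

/-- `p ∣ d`: some power of `f` maps `G` into `Rp p G`. -/
theorem Deg.pow_le_Rp {f : Monoid.End G} {d : ℤ} (hS : Deg G f (d : ℚ))
    (hF : FAb G) (p : ℕ) [Fact p.Prime] (hp : (p : ℤ) ∣ d) :
    ∃ N : ℕ, 0 < N ∧ ∀ g : G, (f ^ N : Monoid.End G) g ∈ Rp p G := by
  have hpp : p.Prime := Fact.out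
  have hZ : ¬ ∃ f : G →* Multiplicative ℤ, Function.Surjective f := by
    rintro ⟨u, hu⟩
    refine hF ⊤ (by simp) ⟨u.comp (Subgroup.subtype ⊤), fun y => ?_⟩
    obtain ⟨x, hx⟩ := hu y
    exact ⟨⟨x, Subgroup.mem_top x⟩, hx⟩
  have hfin : Finite (Abelianization G) := finite_abelianization hS.fg hZ
  let φ : Monoid.End (Abelianization G) := Abelianization.map f
  have hφ : ∀ (n : ℕ) (g : G), (φ ^ n : Monoid.End (Abelianization G)) (Abelianization.of g) =
      Abelianization.of ((f ^ n : Monoid.End G) g) := by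
    intro n
    induction n with
    | zero => intro g; rfl
    | succ n ih =>
      intro g
      rw [pow_succ, pow_succ]
      have h1 : (φ ^ n * φ : Monoid.End (Abelianization G)) (Abelianization.of g) =
          (φ ^ n : Monoid.End (Abelianization G)) (φ (Abelianization.of g)) := rfl
      have h2 : φ (Abelianization.of g) = Abelianization.of (f g) := rfl
      have h3 : (f ^ n * f : Monoid.End G) g = (f ^ n : Monoid.End G) (f g) := rfl
      rw [h1, h2, ih, h3]
  have hL : (commutator G).index ≠ 0 := by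
    have h1 : Finite (G ⧸ commutator G) := hfin
    exact Subgroup.index_ne_zero_of_finite
  have hinv : ∀ (n : ℕ), ∀ g ∈ commutator G, (f ^ n : Monoid.End G) g ∈ commutator G := by
    intro n g hg
    rw [← Abelianization.ker_of, MonoidHom.mem_ker] at hg ⊢
    rw [← hφ, hg, map_one]
  obtain ⟨N, hN, h⟩ := exists_pow_kill (Abelianization G) p φ (by
    intro n hn hdvd
    have h1 := hS.fix_pow_dvd hF (commutator G) hL n (hinv n)
    have h2 : Nat.card (FixE (f ^ n : Monoid.End G) (commutator G) (hinv n)) =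
        Nat.card {x : Abelianization G // (φ ^ n : Monoid.End (Abelianization G)) x = x} := by
      refine Nat.card_congr (Equiv.subtypeEquivRight fun x => ?_)
      have h3 : QuotientGroup.map (commutator G) (commutator G) (f ^ n : Monoid.End G)
          (fun g hg => hinv n g hg) x = (φ ^ n : Monoid.End (Abelianization G)) x := by
        obtain ⟨g, rfl⟩ := QuotientGroup.mk_surjective x
        exact (hφ n g).symm
      rw [h3]
      exact Iff.rfl
    rw [h2] at h1
    have h4 : (p : ℤ) ∣ 1 - d ^ n := (Int.natCast_dvd_natCast.2 hdvd).trans h1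
    have h5 : (p : ℤ) ∣ d ^ n := dvd_pow hp (by omega)
    have h6 : (p : ℤ) ∣ 1 := by
      have := dvd_add h4 h5
      rwa [sub_add_cancel] at this
    have h7 : p ∣ 1 := by exact_mod_cast h6
    exact hpp.one_lt.ne' (Nat.dvd_one.1 h7))
  refine ⟨N, hN, fun g => ?_⟩
  obtain ⟨k, hk, hk1⟩ := h (Abelianization.of g)
  refine ⟨k, hk, ?_⟩
  rw [← Abelianization.ker_of, MonoidHom.mem_ker, map_pow, ← hφ]
  exact hk1


/-- The lower exponent-`p` central series has small index if `p` does not divide the degree. -/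
theorem FDeg.LP_bound {f : Monoid.End G} {d : ℤ} (hS : FDeg G f d)
    (hF : FAb G) (p : ℕ) [Fact p.Prime] (hp : ¬ (p : ℤ) ∣ d) :
    ∃ C : ℕ, ∀ i : ℕ, (LP p G (i + 1)).index ≤ p ^ (i + C) := by
  have hpp : p.Prime := Fact.out
  have hrange : ¬ p ∣ (MonoidHom.range (f : G →* G)).index := by
    intro h
    exact hp ((Int.natCast_dvd_natCast.2 h).trans (hS.1.index_dvd hS.2.1))
  obtain ⟨n, hn, hn1⟩ := exists_pow_trivial hS.fg f p hrange
  have hmc : d ≠ 0 := fun h => hp (h ▸ dvd_zero _)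
  have habs : 2 ≤ |d| := by
    have h1 : 1 ≤ |d| := Int.one_le_abs hmc
    have h2 := hS.2.2
    omega
  have hx : 2 ≤ |d ^ n| := by
    rw [abs_pow]
    calc (2 : ℤ) ≤ |d| := habs
      _ = |d| ^ 1 := (pow_one _).symm
      _ ≤ |d| ^ n := pow_le_pow_right₀ (by linarith) hn
  obtain ⟨C, hC⟩ := pow_bound p (d ^ n) hx
  refine ⟨C, fun i => ?_⟩
  obtain ⟨e, he⟩ := LP_index (G := G) hS.fg p (i + 1)
  have hidx : (LP p G (i + 1)).index ≠ 0 := by
    rw [he]
    exact pow_ne_zero _ hpp.ne_zero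
  have hinv : ∀ g ∈ LP p G (i + 1), (f ^ (n * p ^ i) : Monoid.End G) g ∈ LP p G (i + 1) :=
    fun g hg => LP_hom_mem p (f ^ (n * p ^ i) : Monoid.End G) hg
  have htriv : ∀ g : G, g⁻¹ * (f ^ (n * p ^ i) : Monoid.End G) g ∈ LP p G (i + 1) := by
    intro g
    have := pow_trivial p (f ^ n : Monoid.End G) hn1 i g
    rwa [← pow_mul] at this
  have hdvd := hS.1.fix_pow_dvd hF (LP p G (i + 1)) hidx (n * p ^ i) hinv
  have hcard : Nat.card (FixE (f ^ (n * p ^ i) : Monoid.End G) (LP p G (i + 1)) hinv) =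
      (LP p G (i + 1)).index := by
    refine Nat.card_congr (Equiv.subtypeUnivEquiv fun x => ?_)
    induction x using QuotientGroup.induction_on with
    | H g =>
      rw [QuotientGroup.map_mk]
      exact (QuotientGroup.eq.2 (htriv g)).symm
  rw [hcard, he, Nat.cast_pow] at hdvd
  have h5 : (p : ℤ) ^ e ∣ (d ^ n) ^ (p ^ i) - 1 := by
    rw [← pow_mul, ← dvd_neg, neg_sub]
    exact hdvd
  rw [he]
  exact Nat.pow_le_pow_right hpp.pos (hC i e h5)


theorem FDeg.bdd_of_dvd {f : Monoid.End G} {d : ℤ} (hS : FDeg G f d)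
    (hF : FAb G) (p : ℕ) [Fact p.Prime] (hp : (p : ℤ) ∣ d) : BddP p G := by
  obtain ⟨N, _, hN⟩ := hS.1.pow_le_Rp hF p hp
  exact lemmaZ hS.fg hF p (f ^ N) (pow_index_ne hS.2.1 N) hN

theorem FDeg.bdd_of_not_dvd {f : Monoid.End G} {d : ℤ} (hS : FDeg G f d)
    (hF : FAb G) (p : ℕ) [Fact p.Prime] (hp : ¬ (p : ℤ) ∣ d) : BddP p G := by
  refine lemmaW hS.fg hF p (hS.LP_bound hF p hp) fun l => ?_
  have h1 : (LP p G l).index ≠ 0 := by
    obtain ⟨k, hk⟩ := LP_index hS.fg p l
    rw [hk]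
    exact pow_ne_zero _ (Nat.Prime.ne_zero Fact.out)
  have h2 := hS.restrict (LP p G l) h1 (fun g hg => LP_hom_mem p (f : G →* G) hg)
  exact FDeg.LP_bound (f := (resEnd (f : G →* G) (LP p G l)
    (fun g hg => LP_hom_mem p (f : G →* G) hg) : Monoid.End (LP p G l))) h2
    (hF.restrict _ h1) p hp

theorem FDeg.bdd {f : Monoid.End G} {d : ℤ} (hS : FDeg G f d)
    (hF : FAb G) (p : ℕ) [Fact p.Prime] : BddP p G := by
  by_cases hp : (p : ℤ) ∣ d
  · exact hS.bdd_of_dvd hF p hp
  · exact hS.bdd_of_not_dvd hF p hp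

end Pool.ACH
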