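import Pool.Agent.Helper20.SE.S6

/-!
Project EN (MP_9d9192_al): endomorphisms of orientable Poincare duality groups of dimension three
(not necessarily injective, the image of any index) and their degree.
-/

set_option autoImplicit false

namespace Pool.ACH

/-- A chain map over the endomorphism `f`. -/
structure CM {G P0 P1 P2 P3 : Type} [Group G] [AddCommGroup P0]
    [AddCommGroup P1] [AddCommGroup P2] [AddCommGroup P3] [DistribMulAction G P0]
    [DistribMulAction G P1] [DistribMulAction G P2] [DistribMulAction G P3]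
    (D : PD3Data G P0 P1 P2 P3) (f : G →* G) where
  F0 : P0 →+ P0
  F1 : P1 →+ P1
  F2 : P2 →+ P2
  F3 : P3 →+ P3
  F0_smul : ∀ (g : G) (p : P0), F0 (g • p) = f g • F0 p
  F1_smul : ∀ (g : G) (p : P1), F1 (g • p) = f g • F1 p
  F2_smul : ∀ (g : G) (p : P2), F2 (g • p) = f g • F2 p
  F3_smul : ∀ (g : G) (p : P3), F3 (g • p) = f g • F3 p
  ε_F0 : ∀ p, D.ε (F0 p) = D.ε p
  comm0 : ∀ p, F0 (D.d0 p) = D.d0 (F1 p)
  comm1 : ∀ p, F1 (D.d1 p) = D.d1 (F2 p)
  comm2 : ∀ p, F2 (D.d2 p) = D.d2 (F3 p)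

/-- The fundamental class with rational values. -/
noncomputable def PD3Data.nu {G P0 P1 P2 P3 : Type} [Group G] [AddCommGroup P0]
    [AddCommGroup P1] [AddCommGroup P2] [AddCommGroup P3] [DistribMulAction G P0]
    [DistribMulAction G P1] [DistribMulAction G P2] [DistribMulAction G P3]
    (D : PD3Data G P0 P1 P2 P3) : P3 →+ ℚ := tw D.z D.z_fs (fun _ => (1 : ℚ))

/-- The chain map `E` has degree `d`. -/
def CM.HasDeg {G P0 P1 P2 P3 : Type} [Group G] [AddCommGroup P0]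
    [AddCommGroup P1] [AddCommGroup P2] [AddCommGroup P3] [DistribMulAction G P0]
    [DistribMulAction G P1] [DistribMulAction G P2] [DistribMulAction G P3]
    {D : PD3Data G P0 P1 P2 P3} {f : G →* G} (E : CM D f) (d : ℚ) : Prop :=
  ∃ ω : P2 →+ ℚ, Inv G ω ∧ ∀ p, D.nu (E.F3 p) = d * D.nu p + ω (D.d2 p)

/-- The endomorphism `f` has degree `d`. -/
def Deg (G : Type) [Group G] (f : G →* G) (d : ℚ) : Prop :=
  ∃ (P0 P1 P2 P3 : Type) (_ : AddCommGroup P0) (_ : AddCommGroup P1) (_ : AddCommGroup P2)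
    (_ : AddCommGroup P3) (_ : DistribMulAction G P0) (_ : DistribMulAction G P1)
    (_ : DistribMulAction G P2) (_ : DistribMulAction G P3) (D : PD3Data G P0 P1 P2 P3)
    (E : CM D f), E.HasDeg d

theorem Deg.fg {G : Type} [Group G] {f : G →* G} {d : ℚ} (h : Deg G f d) : Group.FG G := by
  obtain ⟨P0, P1, P2, P3, _, _, _, _, _, _, _, _, D, _⟩ := h
  exact D.fg

section

variable {G : Type} [Group G] {P0 P1 P2 P3 : Type} [AddCommGroup P0] [AddCommGroup P1]
    [AddCommGroup P2] [AddCommGroup P3] [DistribMulAction G P0] [DistribMulAction G P1]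
    [DistribMulAction G P2] [DistribMulAction G P3]

theorem tw_one {L P : Type} [Group L] [AddCommGroup P] [DistribMulAction L P]
    (φ : P →+ ℤ) (hφ : IsFs L φ) (a : ℚ) (p : P) :
    tw φ hφ (fun _ : L => a) p = a * tw φ hφ (fun _ : L => (1 : ℚ)) p := by
  have h := map_tw (AddMonoidHom.mulLeft a) φ hφ (fun _ : L => (1 : ℚ)) p
  simp only [AddMonoidHom.coe_mulLeft, mul_one] at h
  exact h.symm

theorem PD3Data.nu_smul (D : PD3Data G P0 P1 P2 P3) (g : G) (p : P3) :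
    D.nu (g • p) = D.nu p := tw_inv D.z D.z_fs (1 : ℚ) g p

/-- `a ν` is not a coboundary unless `a = 0`. -/
theorem PD3Data.nu_zero (D : PD3Data G P0 P1 P2 P3) (a : ℚ) (ω : P2 →+ ℚ) (hω : Inv G ω)
    (h : ∀ p, a * D.nu p = ω (D.d2 p)) : a = 0 := by
  refine D.top_zero a ω hω fun p => ?_
  rw [tw_one]
  exact h p

/-- Every invariant map is a multiple of `ν` up to coboundaries. -/
theorem PD3Data.nu_gen (D : PD3Data G P0 P1 P2 P3) (ω : P3 →+ ℚ) (hω : Inv G ω) :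
    ∃ (a : ℚ) (y : P2 →+ ℚ), Inv G y ∧ ∀ p, ω p = a * D.nu p + y (D.d2 p) := by
  obtain ⟨a, y, hy, h⟩ := D.top_gen ω hω
  refine ⟨a, y, hy, fun p => ?_⟩
  rw [h, tw_one]
  rfl

/-- Existence of chain maps over endomorphisms. -/
theorem PD3Data.exists_cm (D : PD3Data G P0 P1 P2 P3) (f : G →* G) : Nonempty (CM D f) := by
  have h00 : ∀ p, D.ε (D.d0 p) = 0 := fun p => (D.exact0 _).2 ⟨p, rfl⟩
  have h01 : ∀ p, D.d0 (D.d1 p) = 0 := fun p => (D.exact1 _).2 ⟨p, rfl⟩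
  have h12 : ∀ p, D.d1 (D.d2 p) = 0 := fun p => (D.exact2 _).2 ⟨p, rfl⟩
  have hF0 : ∃ F0 : P0 →+ P0, (∀ (g : G) (p : P0), F0 (g • p) = f g • F0 p) ∧
      ∀ p, D.ε (F0 p) = D.ε p := by
    let _ : DistribMulAction G ℤ :=
      { smul := fun _ n => n
        one_smul := fun _ => rfl
        mul_smul := fun _ _ _ => rfl
        smul_zero := fun _ => rfl
        smul_add := fun _ _ _ => rfl }
    obtain ⟨F, h1, h2⟩ := D.b0.exists_lift f D.ε (fun g x => D.ε_smul g x) D.ε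
      (fun g x => D.ε_smul g x) (fun p => ⟨p, rfl⟩)
    exact ⟨F, h1, h2⟩
  obtain ⟨F0, F0s, F0e⟩ := hF0
  obtain ⟨F1, F1s, F1e⟩ := D.b1.exists_lift f D.d0 D.d0_smul (F0.comp D.d0)
    (fun g p => by
      rw [AddMonoidHom.comp_apply, AddMonoidHom.comp_apply, D.d0_smul, F0s])
    (fun p => by
      rw [← D.exact0, AddMonoidHom.comp_apply, F0e, h00])
  obtain ⟨F2, F2s, F2e⟩ := D.b2.exists_lift f D.d1 D.d1_smul (F1.comp D.d1)
    (fun g p => by
      rw [AddMonoidHom.comp_apply, AddMonoidHom.comp_apply, D.d1_smul, F1s])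
    (fun p => by
      rw [← D.exact1, AddMonoidHom.comp_apply, F1e, AddMonoidHom.comp_apply, h01, map_zero])
  obtain ⟨F3, F3s, F3e⟩ := D.b3.exists_lift f D.d2 D.d2_smul (F2.comp D.d2)
    (fun g p => by
      rw [AddMonoidHom.comp_apply, AddMonoidHom.comp_apply, D.d2_smul, F2s])
    (fun p => by
      rw [← D.exact2, AddMonoidHom.comp_apply, F2e, AddMonoidHom.comp_apply, h12, map_zero])
  exact ⟨⟨F0, F1, F2, F3, F0s, F1s, F2s, F3s, F0e, fun p => (F1e p).symm,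
    fun p => (F2e p).symm, fun p => (F3e p).symm⟩⟩

theorem CM.exists_hasDeg {D : PD3Data G P0 P1 P2 P3} {f : G →* G} (E : CM D f) :
    ∃ d : ℚ, E.HasDeg d := by
  obtain ⟨a, y, hy, h⟩ := D.nu_gen (D.nu.comp E.F3) (fun g p => by
    rw [AddMonoidHom.comp_apply, AddMonoidHom.comp_apply, E.F3_smul, D.nu_smul])
  exact ⟨a, y, hy, h⟩

theorem PD3Data.exists_deg (D : PD3Data G P0 P1 P2 P3) (f : G →* G) : ∃ d : ℚ, Deg G f d := by
  obtain ⟨E⟩ := D.exists_cm f
  obtain ⟨d, hd⟩ := E.exists_hasDeg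
  exact ⟨d, P0, P1, P2, P3, _, _, _, _, _, _, _, _, D, E, hd⟩

private theorem conj_smul {P : Type} [AddCommGroup P] [DistribMulAction G P] (f : G →* G) (c : G)
    (F : P →+ P) (hF : ∀ (g : G) (p : P), F (g • p) = f g • F p) (g : G) (p : P) :
    ((DistribSMul.toAddMonoidHom P c).comp F) (g • p) =
      conjEnd c f g • ((DistribSMul.toAddMonoidHom P c).comp F) p := by
  change c • F (g • p) = conjEnd c f g • c • F p
  rw [hF, smul_smul, smul_smul, conjEnd_apply, inv_mul_cancel_right]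

/-- Inner twists have the same degree. -/
theorem Deg.conj {f : G →* G} {d : ℚ} (h : Deg G f d) (g : G) : Deg G (conjEnd g f) d := by
  obtain ⟨P0, P1, P2, P3, i1, i2, i3, i4, i5, i6, i7, i8, D, E, ω, hω, hE⟩ := h
  refine ⟨P0, P1, P2, P3, i1, i2, i3, i4, i5, i6, i7, i8, D,
    { F0 := (DistribSMul.toAddMonoidHom P0 g).comp E.F0
      F1 := (DistribSMul.toAddMonoidHom P1 g).comp E.F1
      F2 := (DistribSMul.toAddMonoidHom P2 g).comp E.F2
      F3 := (DistribSMul.toAddMonoidHom P3 g).comp E.F3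
      F0_smul := conj_smul f g E.F0 E.F0_smul
      F1_smul := conj_smul f g E.F1 E.F1_smul
      F2_smul := conj_smul f g E.F2 E.F2_smul
      F3_smul := conj_smul f g E.F3 E.F3_smul
      ε_F0 := fun p => ?_
      comm0 := fun p => ?_
      comm1 := fun p => ?_
      comm2 := fun p => ?_ }, ω, hω, fun p => ?_⟩
  · change D.ε (g • E.F0 p) = D.ε p
    rw [D.ε_smul, E.ε_F0]
  · change g • E.F0 (D.d0 p) = D.d0 (g • E.F1 p)
    rw [D.d0_smul, E.comm0]
  · change g • E.F1 (D.d1 p) = D.d1 (g • E.F2 p)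
    rw [D.d1_smul, E.comm1]
  · change g • E.F2 (D.d2 p) = D.d2 (g • E.F3 p)
    rw [D.d2_smul, E.comm2]
  · change D.nu (g • E.F3 p) = d * D.nu p + ω (D.d2 p)
    rw [D.nu_smul, hE]

/-- The composition of chain maps. -/
def CM.cmp {D : PD3Data G P0 P1 P2 P3} {f f' : G →* G} (E : CM D f) (E' : CM D f') :
    CM D (f.comp f') where
  F0 := E.F0.comp E'.F0
  F1 := E.F1.comp E'.F1
  F2 := E.F2.comp E'.F2
  F3 := E.F3.comp E'.F3
  F0_smul g p := by simp [E'.F0_smul, E.F0_smul]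
  F1_smul g p := by simp [E'.F1_smul, E.F1_smul]
  F2_smul g p := by simp [E'.F2_smul, E.F2_smul]
  F3_smul g p := by simp [E'.F3_smul, E.F3_smul]
  ε_F0 p := by simp [E'.ε_F0, E.ε_F0]
  comm0 p := by simp [E'.comm0, E.comm0]
  comm1 p := by simp [E'.comm1, E.comm1]
  comm2 p := by simp [E'.comm2, E.comm2]

theorem CM.cmp_hasDeg {D : PD3Data G P0 P1 P2 P3} {f f' : G →* G} {E : CM D f} {E' : CM D f'}
    {d d' : ℚ} (h : E.HasDeg d) (h' : E'.HasDeg d') : (E.cmp E').HasDeg (d * d') := by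
  obtain ⟨ω, hω, hE⟩ := h
  obtain ⟨ω', hω', hE'⟩ := h'
  refine ⟨d • ω' + ω.comp E'.F2, fun g p => ?_, fun p => ?_⟩
  · rw [AddMonoidHom.add_apply, AddMonoidHom.add_apply, AddMonoidHom.smul_apply,
      AddMonoidHom.smul_apply, hω' g p, AddMonoidHom.comp_apply, AddMonoidHom.comp_apply,
      E'.F2_smul, hω]
  · change D.nu (E.F3 (E'.F3 p)) = _
    rw [hE, hE', ← E'.comm2, AddMonoidHom.add_apply, AddMonoidHom.smul_apply,
      AddMonoidHom.comp_apply, smul_eq_mul]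
    ring

/-- The identity chain map. -/
def CM.idm (D : PD3Data G P0 P1 P2 P3) : CM D (MonoidHom.id G) where
  F0 := AddMonoidHom.id P0
  F1 := AddMonoidHom.id P1
  F2 := AddMonoidHom.id P2
  F3 := AddMonoidHom.id P3
  F0_smul _ _ := rfl
  F1_smul _ _ := rfl
  F2_smul _ _ := rfl
  F3_smul _ _ := rfl
  ε_F0 _ := rfl
  comm0 _ := rfl
  comm1 _ := rfl
  comm2 _ := rfl

theorem CM.idm_hasDeg (D : PD3Data G P0 P1 P2 P3) : (CM.idm D).HasDeg 1 :=
  ⟨0, fun _ _ => by simp, fun p => by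
    change D.nu p = _
    simp⟩

private theorem exists_cm_pow {D : PD3Data G P0 P1 P2 P3} {f : Monoid.End G} {E : CM D f} {d : ℚ}
    (h : E.HasDeg d) (n : ℕ) : ∃ E' : CM D (f ^ n : Monoid.End G), E'.HasDeg (d ^ n) := by
  induction n with
  | zero =>
    have h1 : ∀ x : ℚ, x = 1 → (CM.idm D).HasDeg x := by
      rintro x rfl
      exact CM.idm_hasDeg D
    exact ⟨CM.idm D, h1 _ (pow_zero d)⟩
  | succ n ih =>
    obtain ⟨E', hE'⟩ := ih
    have h1 : ∀ x : ℚ, x = d ^ n * d → (CM.cmp E' E).HasDeg x := by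
      rintro x rfl
      exact CM.cmp_hasDeg hE' h
    exact ⟨(CM.cmp E' E : CM D (MonoidHom.comp (f ^ n : Monoid.End G) f)), h1 _ (pow_succ d n)⟩

theorem Deg.pow {f : Monoid.End G} {d : ℚ} (h : Deg G f d) (n : ℕ) :
    Deg G (f ^ n : Monoid.End G) (d ^ n) := by
  obtain ⟨P0, P1, P2, P3, i0, i1, i2, i3, j0, j1, j2, j3, D, E, hE⟩ := h
  obtain ⟨E', hE'⟩ := exists_cm_pow hE n
  exact ⟨P0, P1, P2, P3, i0, i1, i2, i3, j0, j1, j2, j3, D, E', hE'⟩

end

end Pool.ACH
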