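import Pool.Agent.Helper60.EN.Bdd
import Pool.Agent.Helper20.SE.S27

/-!
Project EN (MP_9d9192_al): if an endomorphism has image of finite index and degree different from
`1` and `-1` then the group has a smallest subgroup of finite index.
-/

set_option autoImplicit false

namespace Pool.ACH

variable {G : Type} [Group G]

/-- (as in SE) -/
theorem FDeg.exists_top_pre {f : G →* G} {d : ℤ} (hS : FDeg G f d)
    (hF : FAb G) {p : ℕ} [Fact p.Prime] (L : Subgroup G) [L.Normal]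
    (hL : FInv L) (P : Sylow p (G ⧸ L)) :
    ∃ (K : Subgroup (pre L P)) (_ : K.Normal), IsTop p K ∧ RankOne p (pre L P ⧸ K) := by
  obtain ⟨g, hg⟩ := exists_conjE f L hL.2.1 (fun x hx => hL.2.2 f x hx) P
  obtain ⟨-, hidx, -⟩ := pre_facts L hL.2.1 P
  have hS1 := (hS.conj g).restrict (pre L P) hidx hg
  have hFH : FAb (pre L P) := hF.restrict (pre L P) hidx
  have hb : BddP p (pre L P) :=
    FDeg.bdd (f := (resEnd (conjEnd g f) (pre L P) hg : Monoid.End (pre L P))) hS1 hFH p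
  obtain ⟨K, hK⟩ := exists_top p hb
  have hn : K.Normal := hK.1
  refine ⟨K, hn, hK, ?_⟩
  have h0 : ∀ a : Hm K (ZMod p), a = 0 := fun a => hK.hom_zero hS1.fg p a
  have hKi : K.index ≠ 0 := by
    obtain ⟨k, hk⟩ := hK.2.1
    rw [hk]
    exact pow_ne_zero _ (Nat.Prime.ne_zero Fact.out)
  obtain ⟨P0, P1, P2, P3, _, _, _, _, _, _, _, _, D, _⟩ := hS1.1
  exact D.rankOne_quot p K hKi h0

/-- (as in SE) -/
theorem FDeg.sylow_cyclic {f : G →* G} {d : ℤ} (hS : FDeg G f d)
    (hF : FAb G) {p : ℕ} [Fact p.Prime] (hp2 : p ≠ 2) (L : Subgroup G) [L.Normal]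
    (hL : FInv L) (P : Sylow p (G ⧸ L)) : IsCyclic P := by
  have hpp : p.Prime := Fact.out
  obtain ⟨K, hK, hKt, hK1⟩ := hS.exists_top_pre hF L hL P
  obtain ⟨-, -, -, h1, ⟨k, hk⟩, -, π, hπ, hker⟩ := pre_facts L hL.2.1 P
  obtain ⟨-, ⟨j, hj⟩, hmin⟩ := hKt
  have hle : K ≤ π.ker := by
    rw [hker]
    exact hmin _ inferInstance ⟨k, by rw [h1, hk]⟩
  have hKi : K.FiniteIndex := ⟨by rw [hj]; exact pow_ne_zero _ hpp.ne_zero⟩
  have hfin : Finite (pre L P ⧸ K) := inferInstance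
  have hpg : IsPGroup p (pre L P ⧸ K) := IsPGroup.of_card (n := j) hj
  have hcyc : IsCyclic (pre L P ⧸ K) := cyclic_of_rankOne _ p hp2 hpg hK1
  exact isCyclic_of_surjective (QuotientGroup.lift K π hle)
    (QuotientGroup.lift_surjective_of_surjective K π hπ hle)

/-- (as in SE) -/
theorem FDeg.next {f : G →* G} {d : ℤ} (hS : FDeg G f d)
    (hF : FAb G) (L : Subgroup G) [L.Normal]
    (hL : FInv L) (P : Sylow 2 (G ⧸ L)) (h4 : 4 ≤ Nat.card P) :
    ∃ (B : ℕ) (L1 : Subgroup G), FInv L1 ∧ ∀ L' : Subgroup G, FInv L' → L' ≤ L1 →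
      ∀ k : ℕ, 2 ^ k ∣ L'.index → B < 2 ^ k → 2 ^ k ∣ Nat.card (Abelianization G) := by
  classical
  obtain ⟨hLH, hHi, hHo, hLi, ⟨a, ha⟩, -, -⟩ := pre_facts L hL.2.1 P
  obtain ⟨K, hKn, hK, hrK⟩ := hS.exists_top_pre hF L hL P
  obtain ⟨-, ⟨e, he⟩, hmin⟩ := hK
  have hKL : K ≤ L.subgroupOf (pre L P) := hmin _ inferInstance ⟨a, by rw [hLi, ha]⟩
  have hKi : K.index ≠ 0 := by
    rw [he]
    exact pow_ne_zero _ two_ne_zero
  have h4K : 4 ≤ K.index := by
    have h1 := Subgroup.index_dvd_of_le hKL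
    rw [hLi] at h1
    exact h4.trans (Nat.le_of_dvd (Nat.pos_of_ne_zero hKi) h1)
  have hKm : (K.map (pre L P).subtype).index ≠ 0 := by
    rw [Subgroup.index_map_subtype]
    exact mul_ne_zero hKi hHi
  obtain ⟨L1, hL1, hL1K⟩ := exists_finv_le hS.fg (K.map (pre L P).subtype) hKm
  refine ⟨K.index, L1, hL1, fun L' hL' hL'L1 k hk hB => ?_⟩
  have hnL' : L'.Normal := hL'.1
  have hL'L : L' ≤ L := by
    refine (hL'L1.trans hL1K).trans ?_
    rintro _ ⟨x, hx, rfl⟩
    exact hKL hx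
  obtain ⟨P', hP'⟩ := exists_sylow_le L L' hL'L hL'.2.1 P
  obtain ⟨hLH', hHi', hHo', hLi', ⟨a', ha'⟩, hdv', π, hπ, hπk⟩ := pre_facts L' hL'.2.1 P'
  obtain ⟨K', hKn', hK', hrK'⟩ := hS.exists_top_pre hF L' hL' P'
  obtain ⟨-, ⟨e', he'⟩, hmin'⟩ := hK'
  have hKL' : K' ≤ L'.subgroupOf (pre L' P') := hmin' _ inferInstance ⟨a', by rw [hLi', ha']⟩
  have hKi' : K'.index ≠ 0 := by
    rw [he']
    exact pow_ne_zero _ two_ne_zero
  have hcK : Nat.card (pre L P ⧸ K) = 2 ^ e := he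
  have hcK' : Nat.card (pre L' P' ⧸ K') = 2 ^ e' := he'
  have hfin : Finite (pre L P ⧸ K) := Nat.finite_of_card_ne_zero (by
    rw [hcK]; exact pow_ne_zero _ two_ne_zero)
  have hfin' : Finite (pre L' P' ⧸ K') := Nat.finite_of_card_ne_zero (by
    rw [hcK']; exact pow_ne_zero _ two_ne_zero)
  -- the homomorphism to the old quotient
  obtain ⟨φ, hφ⟩ : ∃ φ : pre L' P' →* pre L P ⧸ K,
      φ = (QuotientGroup.mk' K).comp (Subgroup.inclusion hP') := ⟨_, rfl⟩
  have hφs : Function.Surjective φ := by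
    rw [← MonoidHom.range_eq_top, ← Subgroup.index_eq_one]
    have h1 : φ.range.index ∣ 2 ^ e := by
      rw [← hcK]
      exact Subgroup.index_dvd_card _
    have h2 : φ.range.index ∣ (pre L' P').index := by
      have h3 : (φ.range.comap (QuotientGroup.mk' K)).index = φ.range.index :=
        Subgroup.index_comap_of_surjective _ (QuotientGroup.mk'_surjective K)
      have h4 : (pre L' P').subgroupOf (pre L P) ≤ φ.range.comap (QuotientGroup.mk' K) := by
        intro x hx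
        rw [Subgroup.mem_subgroupOf] at hx
        refine Subgroup.mem_comap.2 ⟨⟨x, hx⟩, ?_⟩
        rw [hφ]
        rfl
      have h5 := Subgroup.index_dvd_of_le h4
      rw [h3] at h5
      refine h5.trans ?_
      have h6 := Subgroup.relIndex_mul_index hP'
      exact Dvd.intro _ h6
    obtain ⟨j, _, hj⟩ := (Nat.dvd_prime_pow Nat.prime_two).1 h1
    rcases Nat.eq_zero_or_pos j with h0 | h0
    · rw [hj, h0, pow_zero]
    · exact absurd (((hj ▸ dvd_pow_self 2 h0.ne') : 2 ∣ _).trans h2) hHo'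
  have hφk : K' ≤ φ.ker := by
    refine hmin' _ inferInstance ⟨e, ?_⟩
    rw [Subgroup.index_ker, MonoidHom.range_eq_top.2 hφs, Subgroup.card_top, hcK]
  -- the induced homomorphism
  have hψs : Function.Surjective (QuotientGroup.lift K' φ hφk) := by
    intro y
    obtain ⟨x, hx⟩ := hφs y
    exact ⟨(x : pre L' P' ⧸ K'), hx⟩
  have h2k : 2 ^ k ∣ Nat.card P' := hdv' k hk
  have hPK : Nat.card P' ∣ Nat.card (pre L' P' ⧸ K') := by
    rw [← hLi']
    exact Subgroup.index_dvd_of_le hKL'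
  have hψn : ¬ Function.Injective (QuotientGroup.lift K' φ hφk) := by
    intro hinj
    have h1 := Nat.card_congr (Equiv.ofBijective _ ⟨hinj, hψs⟩)
    have h2 : 2 ^ k ≤ Nat.card (pre L' P' ⧸ K') :=
      Nat.le_of_dvd Nat.card_pos (h2k.trans hPK)
    rw [h1] at h2
    have h3 : Nat.card (pre L P ⧸ K) = K.index := rfl
    omega
  have hcyc : IsCyclic (pre L' P' ⧸ K') :=
    cyclic_of_quot (pre L' P' ⧸ K') (pre L P ⧸ K) (IsPGroup.of_card hcK') hrK' hrK h4K
      (QuotientGroup.lift K' φ hφk) hψs hψn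
  have hcycP : IsCyclic P' := by
    have h1 : K' ≤ π.ker := by
      rw [hπk]
      exact hKL'
    refine isCyclic_of_surjective (QuotientGroup.lift K' π h1) ?_
    intro y
    obtain ⟨x, hx⟩ := hπ y
    exact ⟨(x : pre L' P' ⧸ K'), hx⟩
  have hfinL : Finite (G ⧸ L') := Nat.finite_of_card_ne_zero hL'.2.1
  refine (h2k.trans (card_sylow_dvd (G ⧸ L') P' hcycP)).trans ?_
  refine Subgroup.card_dvd_of_surjective (Abelianization.map (QuotientGroup.mk' L')) ?_
  intro y
  obtain ⟨z, rfl⟩ := QuotientGroup.mk_surjective y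
  obtain ⟨x, rfl⟩ := QuotientGroup.mk'_surjective L' z
  exact ⟨Abelianization.of x, by rw [Abelianization.map_of]; rfl⟩

/-- (as in SE) -/
theorem FDeg.two_bounded {f : G →* G} {d : ℤ} (hS : FDeg G f d)
    (hF : FAb G) :
    ∃ N : ℕ, ∀ L : Subgroup G, FInv L → ∀ k : ℕ, 2 ^ k ∣ L.index → 2 ^ k ≤ N := by
  by_contra hcon
  push Not at hcon
  have hfg : Group.FG G := hS.fg
  obtain ⟨L, hL, k0, hk0, hlt⟩ := hcon 3
  have hLn : L.Normal := hL.1
  have hfinQ : Finite (G ⧸ L) := Nat.finite_of_card_ne_zero hL.2.1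
  obtain ⟨P⟩ : Nonempty (Sylow 2 (G ⧸ L)) := inferInstance
  obtain ⟨_, _, _, _, ⟨r, hr⟩, hdvd, _⟩ := pre_facts L hL.2.1 P
  have hpos : 0 < Nat.card P := by rw [hr]; positivity
  have h4 : 4 ≤ Nat.card P := by
    have h1 := Nat.le_of_dvd hpos (hdvd k0 hk0)
    omega
  obtain ⟨B, L1, hL1, hnext⟩ := hS.next hF L hL P h4
  obtain ⟨L2, hL2, k, hk, hlt2⟩ := hcon (max B (Nat.card (Abelianization G)))
  have hB : B < 2 ^ k := lt_of_le_of_lt (le_max_left _ _) hlt2
  have hA : Nat.card (Abelianization G) < 2 ^ k := lt_of_le_of_lt (le_max_right _ _) hlt2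
  have h5 := hnext (L1 ⊓ L2) (hL1.inf hL2) inf_le_left k
    (hk.trans (Subgroup.index_dvd_of_le inf_le_right)) hB
  have h6 : Nat.card (Abelianization G) ≠ 0 := by
    have h7 := derived_index_all hfg hF 1
    rw [derivedSeries_one] at h7
    exact h7
  exact absurd (Nat.le_of_dvd (Nat.pos_of_ne_zero h6) h5) (not_le.2 hA)

/-- (as in SE) -/
theorem FDeg.derived_le {f : G →* G} {d : ℤ} (hS : FDeg G f d)
    (hF : FAb G) (L L' : Subgroup G) (hL : FInv L) (hL' : FInv L') (hle : L' ≤ L)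
    (hodd : ¬ 2 ∣ L'.relIndex L) : derivedSeries L 2 ≤ L'.subgroupOf L := by
  have hn := hL'.1
  have hi : (L'.subgroupOf L).index ≠ 0 := by
    intro h0
    have h1 : L'.relIndex L ∣ L'.index := Subgroup.relIndex_dvd_index_of_normal L' L
    have h2 : L'.relIndex L = 0 := h0
    rw [h2, zero_dvd_iff] at h1
    exact hL'.2.1 h1
  have : (L'.subgroupOf L).FiniteIndex := ⟨hi⟩
  have : L'.FiniteIndex := ⟨hL'.2.1⟩
  refine Pool.ACH.derived_le (L'.subgroupOf L) hi ⟨fun p hp P => ?_⟩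
  have : Fact p.Prime := ⟨hp⟩
  have hfin : Finite (L ⧸ L'.subgroupOf L) := inferInstance
  rcases eq_or_ne p 2 with rfl | hp2
  · obtain ⟨k, hk⟩ := IsPGroup.iff_card.1 P.isPGroup'
    have h1 : Nat.card (P : Subgroup (L ⧸ L'.subgroupOf L)) ∣ L'.relIndex L :=
      Subgroup.card_subgroup_dvd_card _
    have h2 : k = 0 := by
      by_contra hk0
      refine hodd (dvd_trans ?_ h1)
      rw [hk]
      exact dvd_pow_self 2 hk0
    rw [h2, pow_zero] at hk
    have h3 : Subsingleton P := (Nat.card_eq_one_iff_unique.1 hk).1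
    infer_instance
  · have hc : L'.subgroupOf L ≤ L'.comap L.subtype := le_rfl
    let ι : (L ⧸ L'.subgroupOf L) →* (G ⧸ L') :=
      QuotientGroup.map (L'.subgroupOf L) L' L.subtype hc
    have hι : Function.Injective ι := by
      rw [injective_iff_map_eq_one]
      intro x hx
      obtain ⟨g, rfl⟩ := QuotientGroup.mk_surjective x
      have h1 : ((g : G) : G ⧸ L') = 1 := hx
      rw [QuotientGroup.eq_one_iff] at h1 ⊢
      exact h1
    obtain ⟨Q, hQ⟩ := (P.isPGroup'.map ι).exists_le_sylow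
    have hQc : IsCyclic Q := hS.sylow_cyclic hF hp2 L' hL' Q
    let j : P →* Q := (ι.comp (P : Subgroup (L ⧸ L'.subgroupOf L)).subtype).codRestrict
      (Q : Subgroup (G ⧸ L')) fun x => hQ ⟨x, x.2, rfl⟩
    exact isCyclic_of_injective j fun x y hxy => by
      have h1 : ι x = ι y := congrArg Subtype.val hxy
      exact Subtype.ext (hι h1)


/-- A smallest subgroup of finite index exists. -/
theorem FDeg.smallest {f : G →* G} {d : ℤ} (hS : FDeg G f d) (hF : FAb G) :
    ∃ N : Subgroup G, N.index ≠ 0 ∧ ∀ K : Subgroup G, K.index ≠ 0 → N ≤ K := by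
  classical
  obtain ⟨N, hN⟩ := hS.two_bounded hF
  let P : ℕ → Prop := fun k => ∃ L : Subgroup G, FInv L ∧ 2 ^ k ∣ L.index
  have hP0 : P 0 := by
    refine ⟨⊤, ⟨inferInstance, ?_, fun θ g _ => Subgroup.mem_top _⟩, ?_⟩
    · rw [Subgroup.index_top]
      exact one_ne_zero
    · rw [pow_zero]
      exact one_dvd _
  have hPN : ∀ k, P k → k ≤ N := by
    rintro k ⟨L, hL, hk⟩
    exact (Nat.lt_two_pow_self).le.trans (hN L hL k hk)
  have hspec : P (Nat.findGreatest P N) := Nat.findGreatest_spec (Nat.zero_le N) hP0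
  have hmax : ∀ k, P k → k ≤ Nat.findGreatest P N := fun k hk =>
    Nat.le_findGreatest (hPN k hk) hk
  generalize Nat.findGreatest P N = k0 at hspec hmax
  obtain ⟨L, hL, hk0⟩ := hspec
  have hfg : Group.FG G := hS.fg
  have hfi : L.FiniteIndex := ⟨hL.2.1⟩
  have hfgL : Group.FG L := inferInstance
  have hB := derived_index_all hfgL (hF.restrict L hL.2.1) 2
  obtain ⟨B, hBe⟩ : ∃ B, B = (derivedSeries L 2).index := ⟨_, rfl⟩
  rw [← hBe] at hB
  -- the bound for the subgroups of `L`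
  have key : ∀ L' : Subgroup G, FInv L' → L' ≤ L → L'.index ≤ B * L.index := by
    intro L' hL' hle
    have h1 : L'.relIndex L * L.index = L'.index := Subgroup.relIndex_mul_index hle
    have hodd : ¬ 2 ∣ L'.relIndex L := by
      intro h2
      have h3 : P (k0 + 1) := by
        refine ⟨L', hL', ?_⟩
        rw [← h1, pow_succ, mul_comm]
        exact mul_dvd_mul h2 hk0
      have h4 := hmax _ h3
      omega
    have h2 := hS.derived_le hF L L' hL hL' hle hodd
    have h3 : L'.relIndex L ≤ B := by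
      have h4 : L'.relIndex L ∣ B := by
        rw [hBe]
        exact Subgroup.index_dvd_of_le h2
      exact Nat.le_of_dvd (Nat.pos_of_ne_zero hB) h4
    rw [← h1]
    exact Nat.mul_le_mul_right _ h3
  -- an invariant subgroup of largest index
  let R : ℕ → Prop := fun n => ∃ L' : Subgroup G, FInv L' ∧ L' ≤ L ∧ L'.index = n
  have hR0 : R L.index := ⟨L, hL, le_rfl, rfl⟩
  have hRB : ∀ n, R n → n ≤ B * L.index := by
    rintro n ⟨L', hL', hle, rfl⟩
    exact key L' hL' hle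
  have hspec : R (Nat.findGreatest R (B * L.index)) :=
    Nat.findGreatest_spec (hRB _ hR0) hR0
  have hmaxR : ∀ n, R n → n ≤ Nat.findGreatest R (B * L.index) := fun n hn =>
    Nat.le_findGreatest (hRB n hn) hn
  generalize Nat.findGreatest R (B * L.index) = n0 at hspec hmaxR
  obtain ⟨L1, hL1, hle1, rfl⟩ := hspec
  refine ⟨L1, hL1.2.1, fun K hK => ?_⟩
  obtain ⟨L2, hL2, hL2K⟩ := exists_finv_le hfg K hK
  have h1 := hmaxR _ ⟨L2 ⊓ L1, hL2.inf hL1, inf_le_right.trans hle1, rfl⟩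
  have h2 : (L2 ⊓ L1).relIndex L1 * L1.index = (L2 ⊓ L1).index :=
    Subgroup.relIndex_mul_index inf_le_right
  have h3 : (L2 ⊓ L1).relIndex L1 = 1 := by
    have h4 : 0 < L1.index := Nat.pos_of_ne_zero hL1.2.1
    have h5 : (L2 ⊓ L1).index ≠ 0 := (hL2.inf hL1).2.1
    have h6 : (L2 ⊓ L1).relIndex L1 ≠ 0 := by
      intro h0
      rw [h0, zero_mul] at h2
      exact h5 h2.symm
    have h7 : (L2 ⊓ L1).relIndex L1 ≤ 1 := by
      rw [← h2] at h1
      by_contra h8
      rw [not_le] at h8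
      nlinarith
    omega
  exact (Subgroup.relIndex_eq_one.1 h3).trans (inf_le_left.trans hL2K)

end Pool.ACH
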