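import Pool.Agent.Helper60.EN.Res

/-!
Project EN (MP_9d9192_al): the degree and the index of the image.
-/

set_option autoImplicit false

namespace Pool.ACH

variable {G : Type} [Group G] {P0 P1 P2 P3 : Type} [AddCommGroup P0] [AddCommGroup P1]
    [AddCommGroup P2] [AddCommGroup P3] [DistribMulAction G P0] [DistribMulAction G P1]
    [DistribMulAction G P2] [DistribMulAction G P3]

/-- A flow of divergence one on an infinite coset graph. -/
theorem exists_flow (S : Finset G) (hS : Subgroup.closure (S : Set G) = ⊤) (R : Subgroup G)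
    (hR : R.index = 0) :
    ∃ w : (G ⧸ R) → G → ℚ, ∀ x : G ⧸ R, ∑ s ∈ S, (w x s - w (s⁻¹ • x) s) = 1 := by
  classical
  have hinf : Infinite (G ⧸ R) := by
    rw [← not_finite_iff_infinite]
    intro hfin
    exact (Nat.card_pos (α := G ⧸ R)).ne' hR
  let T : ((G ⧸ R) →₀ ℚ) →ₗ[ℚ] (((G ⧸ R) × S) →₀ ℚ) :=
    ∑ s : S, (Finsupp.lmapDomain ℚ ℚ (fun x : G ⧸ R => (x, s)) -
      Finsupp.lmapDomain ℚ ℚ (fun x : G ⧸ R => ((s : G)⁻¹ • x, s)))
  have hinj1 : ∀ s : S, Function.Injective (fun x : G ⧸ R => (x, s)) := fun s x y h =>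
    congrArg Prod.fst h
  have hinj2 : ∀ s : S, Function.Injective (fun x : G ⧸ R => ((s : G)⁻¹ • x, s)) := by
    intro s x y h
    exact MulAction.injective _ (congrArg Prod.fst h)
  have hT : ∀ (φ : (G ⧸ R) →₀ ℚ) (x : G ⧸ R) (s : S),
      T φ (x, s) = φ x - φ ((s : G) • x) := by
    intro φ x s
    have h1 : ∀ t : S, (Finsupp.lmapDomain ℚ ℚ (fun x : G ⧸ R => (x, t)) φ) (x, s) =
        if t = s then φ x else 0 := by
      intro t
      rw [Finsupp.lmapDomain_apply]
      by_cases h : t = s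
      · subst h
        rw [if_pos rfl]
        exact Finsupp.mapDomain_apply (hinj1 t) φ x
      · rw [if_neg h]
        refine Finsupp.mapDomain_of_notMem_range φ _ ?_
        rintro ⟨y, hy⟩
        exact h (congrArg Prod.snd hy)
    have h2 : ∀ t : S, (Finsupp.lmapDomain ℚ ℚ (fun x : G ⧸ R => ((t : G)⁻¹ • x, t)) φ)
        (x, s) = if t = s then φ ((s : G) • x) else 0 := by
      intro t
      rw [Finsupp.lmapDomain_apply]
      by_cases h : t = s
      · subst h
        rw [if_pos rfl]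
        have h3 := Finsupp.mapDomain_apply (hinj2 t) φ ((t : G) • x)
        simp only [inv_smul_smul] at h3
        exact h3
      · rw [if_neg h]
        refine Finsupp.mapDomain_of_notMem_range φ _ ?_
        rintro ⟨y, hy⟩
        exact h (congrArg Prod.snd hy)
    simp only [T, LinearMap.sum_apply, LinearMap.sub_apply, Finsupp.finsetSum_apply,
      Finsupp.sub_apply, h1, h2, Finset.sum_sub_distrib, Finset.sum_ite_eq', Finset.mem_univ,
      if_true]
  have hTinj : Function.Injective T := by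
    rw [injective_iff_map_eq_zero]
    intro φ hφ
    have h1 : ∀ (s : S) (x : G ⧸ R), φ ((s : G) • x) = φ x := by
      intro s x
      have h2 := hT φ x s
      rw [hφ, Finsupp.zero_apply] at h2
      linarith
    have h2 : ∀ (g : G) (x : G ⧸ R), φ (g • x) = φ x := by
      intro g
      have hg : g ∈ Subgroup.closure (S : Set G) := by rw [hS]; exact Subgroup.mem_top g
      induction hg using Subgroup.closure_induction with
      | mem s hs => exact h1 ⟨s, hs⟩
      | one => intro x; rw [one_smul]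
      | mul a b _ _ ha hb => intro x; rw [mul_smul, ha, hb]
      | inv a _ ha => intro x; rw [← ha (a⁻¹ • x), smul_inv_smul]
    have h3 : ∀ x : G ⧸ R, φ x = φ ((1 : G) : G ⧸ R) := by
      intro x
      obtain ⟨g, rfl⟩ := QuotientGroup.mk_surjective x
      have h4 := h2 g ((1 : G) : G ⧸ R)
      change φ (((g * 1 : G)) : G ⧸ R) = _ at h4
      rwa [mul_one] at h4
    obtain ⟨y, hy⟩ := Infinite.exists_notMem_finset φ.support
    rw [Finsupp.notMem_support_iff] at hy
    ext x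
    rw [h3 x, ← h3 y, hy]
    rfl
  obtain ⟨w, hw⟩ := LinearMap.dualMap_surjective_of_injective hTinj
    (Finsupp.lsum ℚ (fun _ : G ⧸ R => (LinearMap.id : ℚ →ₗ[ℚ] ℚ)))
  refine ⟨fun x s => if h : s ∈ S then w (Finsupp.single (x, ⟨s, h⟩) 1) else 0, fun x => ?_⟩
  have h1 := LinearMap.congr_fun hw (Finsupp.single x 1)
  rw [LinearMap.dualMap_apply] at h1
  have h2 : T (Finsupp.single x 1) = ∑ s : S, (Finsupp.single (x, s) (1 : ℚ) -
      Finsupp.single ((s : G)⁻¹ • x, s) (1 : ℚ)) := by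
    simp only [T, LinearMap.sum_apply, LinearMap.sub_apply, Finsupp.lmapDomain_apply,
      Finsupp.mapDomain_single]
  rw [h2, map_sum] at h1
  have h3 : ((Finsupp.lsum ℚ (fun _ : G ⧸ R => (LinearMap.id : ℚ →ₗ[ℚ] ℚ)))
      (Finsupp.single x 1) : ℚ) = 1 := by
    simp
  rw [h3] at h1
  refine Eq.trans ?_ h1
  rw [← Finset.sum_coe_sort]
  refine Finset.sum_congr rfl fun s _ => ?_
  rw [map_sub]
  simp only [s.2, dif_pos, Subtype.coe_eta]

/-- For a subgroup of infinite index the fundamental class becomes a coboundary. -/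
theorem PD3Data.nu_infinite (D : PD3Data G P0 P1 P2 P3) (R : Subgroup G) (hR : R.index = 0) :
    ∃ y : P2 →+ ℚ, Inv R y ∧ ∀ p, D.nu p = y (D.d2 p) := by
  classical
  obtain ⟨S, hS⟩ := D.fg.out
  obtain ⟨w, hw⟩ := exists_flow S hS R hR
  refine ⟨-∑ s ∈ S, tw (D.c s) (D.c_fs s) (fun g => w ((g⁻¹ : G) : G ⧸ R) s), ?_, ?_⟩
  · intro r p
    rw [AddMonoidHom.neg_apply, AddMonoidHom.neg_apply, AddMonoidHom.finsetSum_apply,
      AddMonoidHom.finsetSum_apply]
    congr 1
    refine Finset.sum_congr rfl fun s _ => ?_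
    change tw (D.c s) (D.c_fs s) (fun g => w ((g⁻¹ : G) : G ⧸ R) s) ((r : G) • p) = _
    rw [tw_smul]
    congr 2
    funext g
    congr 1
    rw [mul_inv_rev]
    exact QuotientGroup.mk_mul_of_mem _ (R.inv_mem r.2)
  · intro p
    rw [AddMonoidHom.neg_apply, AddMonoidHom.finsetSum_apply]
    have h1 : ∀ s ∈ S, tw (D.c s) (D.c_fs s) (fun g => w ((g⁻¹ : G) : G ⧸ R) s) (D.d2 p) =
        tw D.z D.z_fs (fun g => w ((s⁻¹ : G) • ((g⁻¹ : G) : G ⧸ R)) s -
          w ((g⁻¹ : G) : G ⧸ R) s) p := by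
      intro s _
      rw [D.tw_c_d2, tw_sub, AddMonoidHom.sub_apply]
      congr 3
      funext h
      rw [mul_inv_rev]
      rfl
    rw [Finset.sum_congr rfl h1, ← AddMonoidHom.finsetSum_apply, ← tw_sum]
    have h2 : (fun g : G => ∑ s ∈ S, (w ((s⁻¹ : G) • ((g⁻¹ : G) : G ⧸ R)) s -
        w ((g⁻¹ : G) : G ⧸ R) s)) = fun _ => -1 := by
      funext g
      rw [← hw ((g⁻¹ : G) : G ⧸ R), ← Finset.sum_neg_distrib]
      exact Finset.sum_congr rfl fun s _ => by ring
    rw [h2, tw_one]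
    change D.nu p = -(-1 * D.nu p)
    ring

/-- An endomorphism whose image has infinite index has degree zero. -/
theorem Deg.zero {f : G →* G} {d : ℚ} (hd : Deg G f d) (hf : f.range.index = 0) : d = 0 := by
  obtain ⟨P0, P1, P2, P3, _, _, _, _, _, _, _, _, D, E, ω, hω, hE⟩ := hd
  obtain ⟨y, hy, hν⟩ := D.nu_infinite f.range hf
  refine D.nu_zero d (y.comp E.F2 - ω) (fun g p => ?_) fun p => ?_
  · rw [AddMonoidHom.sub_apply, AddMonoidHom.sub_apply, hω, AddMonoidHom.comp_apply,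
      AddMonoidHom.comp_apply, E.F2_smul]
    congr 1
    exact hy ⟨f g, g, rfl⟩ (E.F2 p)
  · have h1 := hE p
    rw [hν (E.F3 p), ← E.comm2] at h1
    rw [AddMonoidHom.sub_apply, AddMonoidHom.comp_apply, h1]
    ring

private theorem split_bij (R : Subgroup G) :
    Function.Bijective (fun x : (G ⧸ R) × R => ((x.2 : G) * (x.1.out)⁻¹)) := by
  constructor
  · rintro ⟨q, r⟩ ⟨q', r'⟩ e
    have e0 : (r : G) * q.out⁻¹ = (r' : G) * q'.out⁻¹ := e
    have e1 : q.out * (r : G)⁻¹ = q'.out * (r' : G)⁻¹ := by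
      have := congrArg (fun x : G => x⁻¹) e0
      simpa using this
    have e2 : q = q' := by
      have e3 : (QuotientGroup.mk (q.out * (r : G)⁻¹) : G ⧸ R) =
          QuotientGroup.mk (q'.out * (r' : G)⁻¹) := by rw [e1]
      rw [QuotientGroup.mk_mul_of_mem q.out (R.inv_mem r.2),
        QuotientGroup.mk_mul_of_mem q'.out (R.inv_mem r'.2),
        QuotientGroup.out_eq', QuotientGroup.out_eq'] at e3
      exact e3
    subst e2
    have e4 : (r : G)⁻¹ = (r' : G)⁻¹ := mul_left_cancel e1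
    rw [Prod.mk.injEq]
    exact ⟨rfl, Subtype.ext (inv_injective e4)⟩
  · intro x
    have h1 : (QuotientGroup.mk (QuotientGroup.mk x⁻¹ : G ⧸ R).out : G ⧸ R) =
        QuotientGroup.mk x⁻¹ := QuotientGroup.out_eq' _
    have h2 : (QuotientGroup.mk x⁻¹ : G ⧸ R).out⁻¹ * x⁻¹ ∈ R := QuotientGroup.eq.1 h1
    refine ⟨⟨QuotientGroup.mk x⁻¹, ⟨_, R.inv_mem h2⟩⟩, ?_⟩
    simp

/-- Splitting of the norm over the cosets of a subgroup of finite index. -/
private theorem split_sum {Q : Type} [AddCommGroup Q] [DistribMulAction G Q] (R : Subgroup G)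
    [Fintype (G ⧸ R)] (φ : Q →+ ℤ) (hφ : IsFs G φ)
    (h : ∀ q : G ⧸ R, IsFs R (rt q.out φ)) (p : Q) :
    tw φ hφ (fun _ => (1 : ℚ)) p =
      ∑ q : G ⧸ R, tw (rt q.out φ) (h q) (fun _ => (1 : ℚ)) p := by
  have e1 : ∀ x : (G ⧸ R) × R,
      φ (((x.2 : G) * (x.1.out)⁻¹)⁻¹ • p) • (1 : ℚ) = (rt x.1.out φ) (x.2⁻¹ • p) • (1 : ℚ) := by
    intro x
    rw [mul_inv_rev, inv_inv, mul_smul, rt_apply]
    rfl
  have e2 : ∑ᶠ x : (G ⧸ R) × R, (rt x.1.out φ) (x.2⁻¹ • p) • (1 : ℚ) =
      ∑ᶠ g : G, φ (g⁻¹ • p) • (1 : ℚ) :=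
    finsum_eq_of_bijective (fun x : (G ⧸ R) × R => ((x.2 : G) * (x.1.out)⁻¹)) (split_bij R)
      fun x => (e1 x).symm
  have e3 : (Function.support fun x : (G ⧸ R) × R =>
      (rt x.1.out φ) (x.2⁻¹ • p) • (1 : ℚ)).Finite := by
    have h1 := (tw_supp φ hφ (fun _ => (1 : ℚ)) p).preimage
      ((split_bij R).1.injOn (s := (fun x : (G ⧸ R) × R => ((x.2 : G) * (x.1.out)⁻¹)) ⁻¹'
        (Function.support fun g : G => φ (g⁻¹ • p) • (1 : ℚ))))
    refine h1.subset fun x hx => ?_
    rw [Set.mem_preimage, Function.mem_support, e1]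
    exact hx
  rw [tw_apply, ← e2, finsum_curry _ e3, finsum_eq_sum_of_fintype]
  exact Finset.sum_congr rfl fun q _ => rfl

/-- For a subgroup of finite index `m` the fundamental class is `m` times the integral fundamental
class of the subgroup. -/
theorem PD3Data.nu_finite (D : PD3Data G P0 P1 P2 P3) (R : Subgroup G) (hR : R.index ≠ 0) :
    ∃ y : P2 →+ ℚ, Inv R y ∧ ∀ p, D.nu p =
      (R.index : ℚ) * (tw D.z (D.z_fs.restrict R) (fun _ => (1 : ℤ)) p : ℤ) + y (D.d2 p) := by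
  classical
  have hfin : R.FiniteIndex := ⟨hR⟩
  let _ : Fintype (G ⧸ R) := Subgroup.fintypeQuotientOfFiniteIndex
  have hcard : Fintype.card (G ⧸ R) = R.index := by
    rw [Subgroup.index_eq_card, Nat.card_eq_fintype_card]
  have hz : ∀ q : G ⧸ R, IsFs R (rt q.out D.z) := fun q => (D.z_fs.rt q.out).restrict R
  have hc : ∀ q : G ⧸ R, IsFs R (D.c q.out) := fun q => (D.c_fs q.out).restrict R
  refine ⟨∑ q : G ⧸ R, tw (D.c q.out) (hc q) (fun _ => (1 : ℚ)), ?_, fun p => ?_⟩
  · intro r p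
    rw [AddMonoidHom.finsetSum_apply, AddMonoidHom.finsetSum_apply]
    exact Finset.sum_congr rfl fun q _ => tw_inv _ _ _ _ _
  · have h1 : D.nu p = ∑ q : G ⧸ R, tw (rt q.out D.z) (hz q) (fun _ => (1 : ℚ)) p :=
      split_sum R D.z D.z_fs hz p
    have h2 : ∀ q : G ⧸ R, tw (rt q.out D.z) (hz q) (fun _ => (1 : ℚ)) p =
        ((tw D.z (D.z_fs.restrict R) (fun _ => (1 : ℤ)) p : ℤ) : ℚ) +
          tw (D.c q.out) (hc q) (fun _ => (1 : ℚ)) (D.d2 p) := by
      intro q
      have e1 : rt q.out D.z = D.z + (D.c q.out).comp D.d2 := by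
        ext x
        exact D.c_spec q.out x
      have e2 : IsFs R ((D.c q.out).comp D.d2) :=
        (hc q).comp D.d2 (fun g x => D.d2_smul (g : G) x)
      rw [tw_congr e1 (hz q) ((D.z_fs.restrict R).add e2),
        tw_add_left (D.z_fs.restrict R) e2, AddMonoidHom.add_apply,
        tw_comp (D.c q.out) (hc q) D.d2 (fun g x => D.d2_smul (g : G) x) e2]
      congr 1
      rw [tw_const, zsmul_eq_mul, mul_one]
    rw [h1, Finset.sum_congr rfl fun q _ => h2 q, Finset.sum_add_distrib, Finset.sum_const,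
      Finset.card_univ, hcard, nsmul_eq_mul, AddMonoidHom.finsetSum_apply]

/-- The index of the image divides the degree. -/
theorem Deg.index_dvd {f : G →* G} {d : ℤ} (hd : Deg G f d) (hf : f.range.index ≠ 0) :
    (f.range.index : ℤ) ∣ d := by
  obtain ⟨P0, P1, P2, P3, _, _, _, _, _, _, _, _, D, E, ω, hω, hE⟩ := hd
  obtain ⟨y, hy, hν⟩ := D.nu_finite f.range hf
  obtain ⟨a, u, hu, hau⟩ := D.top_gen
    ((tw D.z (D.z_fs.restrict f.range) (fun _ => (1 : ℤ))).comp E.F3) (fun g p => by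
      rw [AddMonoidHom.comp_apply, AddMonoidHom.comp_apply, E.F3_smul]
      exact tw_inv D.z (D.z_fs.restrict f.range) (1 : ℤ) ⟨f g, g, rfl⟩ (E.F3 p))
  have h1 : (d : ℚ) - (f.range.index : ℚ) * a = 0 := by
    refine D.nu_zero _ ((f.range.index : ℚ) • (Int.castAddHom ℚ).comp u + y.comp E.F2 - ω)
      (fun g p => ?_) fun p => ?_
    · rw [AddMonoidHom.sub_apply, AddMonoidHom.sub_apply, AddMonoidHom.add_apply,
        AddMonoidHom.add_apply, AddMonoidHom.smul_apply, AddMonoidHom.smul_apply, hω,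
        AddMonoidHom.comp_apply, AddMonoidHom.comp_apply, AddMonoidHom.comp_apply,
        AddMonoidHom.comp_apply, E.F2_smul, hu]
      congr 2
      exact hy ⟨f g, g, rfl⟩ (E.F2 p)
    · have h1 := hE p
      have h2 := hau p
      rw [AddMonoidHom.comp_apply] at h2
      rw [hν (E.F3 p), h2, ← E.comm2] at h1
      have h3 : ((tw D.z D.z_fs (fun _ => a) p : ℤ) : ℚ) = (a : ℚ) * D.nu p := by
        have h4 := map_tw (Int.castAddHom ℚ) D.z D.z_fs (fun _ => a) p
        change ((tw D.z D.z_fs (fun _ => a) p : ℤ) : ℚ) =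
          tw D.z D.z_fs (fun _ => ((a : ℤ) : ℚ)) p at h4
        rw [h4, tw_one]
        rfl
      rw [AddMonoidHom.sub_apply, AddMonoidHom.add_apply, AddMonoidHom.smul_apply,
        AddMonoidHom.comp_apply, AddMonoidHom.comp_apply, smul_eq_mul, Int.coe_castAddHom]
      push_cast at h1
      rw [h3] at h1
      linear_combination -h1
  refine ⟨a, ?_⟩
  have h2 : ((d : ℤ) : ℚ) = (((f.range.index : ℤ) * a : ℤ) : ℚ) := by
    push_cast
    linarith
  exact_mod_cast h2

end Pool.ACH
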