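import Pool.Agent.Helper60.EN.Ori
import Pool.Agent.Helper60.EN.Fin

/-!
Project EN (MP_9d9192_al): the main theorem on endomorphisms.
-/

set_option autoImplicit false

namespace Pool.ACH

variable {G : Type} [Group G] {P0 P1 P2 P3 : Type} [AddCommGroup P0] [AddCommGroup P1]
    [AddCommGroup P2] [AddCommGroup P3] [DistribMulAction G P0] [DistribMulAction G P1]
    [DistribMulAction G P2] [DistribMulAction G P3]

/-- The index of the image of the `n`-th power of an injective endomorphism. -/
theorem index_range_pow (f : Monoid.End G) (hinj : Function.Injective f) (n : ℕ) :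
    (MonoidHom.range ((f ^ n : Monoid.End G) : G →* G)).index =
      (MonoidHom.range (f : G →* G)).index ^ n := by
  induction n with
  | zero =>
    rw [pow_zero, pow_zero, Subgroup.index_eq_one, MonoidHom.range_eq_top]
    exact fun x => ⟨x, rfl⟩
  | succ n ih =>
    have h1 : MonoidHom.range ((f ^ (n + 1) : Monoid.End G) : G →* G) =
        (MonoidHom.range ((f ^ n : Monoid.End G) : G →* G)).map (f : G →* G) := by
      ext y
      constructor
      · rintro ⟨x, rfl⟩
        refine ⟨(f ^ n : Monoid.End G) x, ⟨x, rfl⟩, ?_⟩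
        rw [pow_succ']
        rfl
      · rintro ⟨z, ⟨x, rfl⟩, rfl⟩
        refine ⟨x, ?_⟩
        rw [pow_succ']
        rfl
    rw [h1, Subgroup.index_map_of_injective _ hinj, ih, pow_succ]

/-- If there is a smallest subgroup of finite index, an injective endomorphism with image of
finite index is surjective. -/
theorem surj_of_smallest (f : Monoid.End G) (hinj : Function.Injective f)
    (hi : (MonoidHom.range (f : G →* G)).index ≠ 0)
    (hN : ∃ N : Subgroup G, N.index ≠ 0 ∧ ∀ K : Subgroup G, K.index ≠ 0 → N ≤ K) :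
    Function.Surjective f := by
  obtain ⟨N, hN0, hN⟩ := hN
  by_contra hs
  have h1 : (MonoidHom.range (f : G →* G)).index ≠ 1 := fun h1 =>
    hs (MonoidHom.range_eq_top.1 (Subgroup.index_eq_one.1 h1))
  have h2 : 2 ≤ (MonoidHom.range (f : G →* G)).index := by omega
  have h3 := hN _ (by
    rw [index_range_pow f hinj N.index]
    exact pow_ne_zero _ hi :
      (MonoidHom.range ((f ^ N.index : Monoid.End G) : G →* G)).index ≠ 0)
  have h4 := Nat.le_of_dvd (Nat.pos_of_ne_zero hN0) (Subgroup.index_dvd_of_le h3)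
  rw [index_range_pow f hinj N.index] at h4
  have h5 : 2 ^ N.index ≤ (MonoidHom.range (f : G →* G)).index ^ N.index :=
    Nat.pow_le_pow_left h2 _
  have h6 := Nat.lt_two_pow_self (n := N.index)
  omega

theorem PD3Data.endo (D : PD3Data G P0 P1 P2 P3) (hF : FAb G) (f : Monoid.End G) :
    (¬ Function.Injective f ∧ (MonoidHom.range (f : G →* G)).index ≠ 0 ∧
      ∃ N : Subgroup G, N.index ≠ 0 ∧ ∀ K : Subgroup G, K.index ≠ 0 → N ≤ K) ∨
    Function.Surjective f ∨
    ((MonoidHom.range (f : G →* G)).index = 0 ∧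
      ∀ K : Subgroup G, K.index ≠ 0 → ∃ n : ℕ, ∀ g : G, (f ^ n : Monoid.End G) g ∈ K) := by
  obtain ⟨x, hx⟩ := D.exists_deg f
  obtain ⟨d, rfl⟩ := hx.int hF
  by_cases hi : (MonoidHom.range (f : G →* G)).index = 0
  · right
    right
    have h0 := hx.zero hi
    have h1 : d = 0 := by exact_mod_cast h0
    subst h1
    exact ⟨hi, fun K hK => hx.nilp_le hF K hK⟩
  · by_cases hd : |d| = 1
    · right
      left
      have h1 := hx.index_dvd hi
      have h2 : ((MonoidHom.range (f : G →* G)).index : ℤ) ∣ 1 := by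
        rw [← hd]
        exact (dvd_abs _ _).2 h1
      have h3 : (MonoidHom.range (f : G →* G)).index = 1 := by
        have h4 := Int.eq_one_of_dvd_one (by positivity) h2
        exact_mod_cast h4
      exact MonoidHom.range_eq_top.1 (Subgroup.index_eq_one.1 h3)
    · by_cases hinj : Function.Injective f
      · right
        left
        exact surj_of_smallest f hinj hi (FDeg.smallest ⟨hx, hi, hd⟩ hF)
      · left
        exact ⟨hinj, hi, FDeg.smallest ⟨hx, hi, hd⟩ hF⟩

theorem iterate_eq_pow (f : Monoid.End G) (n : ℕ) (x : G) :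
    (f : G → G)^[n] x = (f ^ n : Monoid.End G) x := by
  induction n generalizing x with
  | zero => rfl
  | succ n ih =>
    rw [Function.iterate_succ_apply, ih, pow_succ]
    rfl

theorem PD3Pre.endo (D : PD3Pre G P0 P1 P2 P3) (H : Subgroup G) (hH : H.index ≠ 0)
    (f : H →* H) :
    VZ G ∨
    (¬ Function.Injective f ∧ f.range.index ≠ 0 ∧
      ∃ N : Subgroup G, N.index ≠ 0 ∧ ∀ K : Subgroup G, K.index ≠ 0 → N ≤ K) ∨
    Function.Surjective f ∨
    (f.range.index = 0 ∧
      ∀ K : Subgroup H, K.index ≠ 0 → ∃ n : ℕ, ∀ x : H, (f : H → H)^[n] x ∈ K) := by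
  by_cases hV : VZ G
  · exact Or.inl hV
  have hF := fab_of_not_vz hV
  have D1 := (D.toData (D.orientable hF)).restrict H hH
  rcases D1.endo (hF.restrict H hH) f with h | h | h
  · right
    left
    obtain ⟨hinj, hi, N, hN, hK⟩ := h
    refine ⟨hinj, hi, N.map H.subtype, ?_, fun K hKi => ?_⟩
    · rw [Subgroup.index_map_subtype]
      exact mul_ne_zero hN hH
    · rw [Subgroup.map_le_iff_le_comap]
      refine hK _ ?_
      have h2 : K.relIndex H ≠ 0 := by
        intro h0
        have h3 := Subgroup.index_inf_ne_zero hKi hH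
        have h4 : (K ⊓ H).relIndex H * H.index = (K ⊓ H).index :=
          Subgroup.relIndex_mul_index inf_le_right
        rw [Subgroup.inf_relIndex_right, h0, zero_mul] at h4
        exact h3 h4.symm
      exact h2
  · exact Or.inr (Or.inr (Or.inl h))
  · right
    right
    right
    refine ⟨h.1, fun K hK => ?_⟩
    obtain ⟨n, hn⟩ := h.2 K hK
    refine ⟨n, fun x => ?_⟩
    have h1 := hn x
    rw [← iterate_eq_pow (G := H) f n x] at h1
    exact h1

end Pool.ACH
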