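import Pool.Agent.Helper60.EN.Idx
import Pool.Agent.Helper20.SE.S25

/-!
Project EN (MP_9d9192_al): endomorphisms of degree zero are nilpotent on the finite quotients.
-/

set_option autoImplicit false

namespace Pool.ACH

theorem exists_idem (Q : Type) [Group Q] [Finite Q] (φ : Monoid.End Q) :
    ∃ N : ℕ, 0 < N ∧ φ ^ (N + N) = φ ^ N := by
  have hfin : Finite (Monoid.End Q) :=
    Finite.of_injective (fun f : Q →* Q => (f : Q → Q)) DFunLike.coe_injective
  obtain ⟨i, j, hij, he⟩ : ∃ i j : ℕ, i < j ∧ φ ^ i = φ ^ j := by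
    obtain ⟨i, j, hne, he⟩ :=
      Finite.exists_ne_map_eq_of_infinite (fun n : ℕ => (φ ^ n : Monoid.End Q))
    rcases lt_or_gt_of_ne hne with h | h
    · exact ⟨i, j, h, he⟩
    · exact ⟨j, i, h, he.symm⟩
  have h1 : ∀ n : ℕ, i ≤ n → φ ^ (n + (j - i)) = φ ^ n := by
    intro n hn
    have e1 : n + (j - i) = (n - i) + j := by omega
    have e2 : n = (n - i) + i := by omega
    rw [e1, pow_add, ← he, ← pow_add, ← e2]
  have h2 : ∀ (t n : ℕ), i ≤ n → φ ^ (n + t * (j - i)) = φ ^ n := by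
    intro t n hn
    induction t with
    | zero => simp
    | succ t ih =>
      have e1 : n + (t + 1) * (j - i) = (n + t * (j - i)) + (j - i) := by ring
      rw [e1, h1 _ (by omega), ih]
  set N : ℕ := (i + 1) * (j - i) with hN
  have hN1 : i + 1 ≤ N := by
    rw [hN]
    exact Nat.le_mul_of_pos_right _ (by omega)
  exact ⟨N, by omega, h2 (i + 1) N (by omega)⟩

variable {G : Type} [Group G]

theorem pow_mem_of (f : Monoid.End G) (L : Subgroup G) (h : ∀ g ∈ L, f g ∈ L) (n : ℕ) :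
    ∀ g ∈ L, (f ^ n : Monoid.End G) g ∈ L := by
  induction n with
  | zero => intro g hg; exact hg
  | succ n ih =>
    intro g hg
    rw [pow_succ]
    exact ih (f g) (h g hg)

/-- The endomorphism induced on a quotient. -/
def quoEnd (f : Monoid.End G) (L : Subgroup G) [L.Normal] (h : ∀ g ∈ L, f g ∈ L) :
    Monoid.End (G ⧸ L) := QuotientGroup.map L L (f : G →* G) (fun g hg => h g hg)

theorem mk_pow (f : Monoid.End G) (L : Subgroup G) [L.Normal] (h : ∀ g ∈ L, f g ∈ L)
    (n : ℕ) (g : G) :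
    (quoEnd f L h ^ n : Monoid.End (G ⧸ L)) (g : G ⧸ L) =
      (((f ^ n : Monoid.End G) g : G) : G ⧸ L) := by
  induction n generalizing g with
  | zero => rfl
  | succ n ih =>
    rw [pow_succ, pow_succ]
    exact ih (f g)

/-- PART A.  An endomorphism of degree zero is nilpotent on every finite quotient. -/
theorem Deg.nilp {f : Monoid.End G} (hd : Deg G f ((0 : ℤ) : ℚ)) (hF : FAb G)
    (L : Subgroup G) [L.Normal] (hL : L.index ≠ 0) (h : ∀ g ∈ L, f g ∈ L) :
    ∃ N : ℕ, 0 < N ∧ ∀ g : G, (f ^ N : Monoid.End G) g ∈ L := by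
  have : L.FiniteIndex := ⟨hL⟩
  have : Finite (G ⧸ L) := inferInstance
  obtain ⟨N, hN, hid⟩ := exists_idem (G ⧸ L) (quoEnd f L h)
  refine ⟨N, hN, fun g => ?_⟩
  have h1 := hd.fix_pow_dvd hF L hL N (pow_mem_of f L h N)
  rw [zero_pow hN.ne', sub_zero] at h1
  have h2 : Nat.card (FixE (f ^ N : Monoid.End G) L (pow_mem_of f L h N)) = 1 := by
    have h3 := Int.eq_one_of_dvd_one (by positivity) h1
    exact_mod_cast h3
  obtain ⟨h3, -⟩ := Nat.card_eq_one_iff_unique.1 h2
  have h4 : ∀ x : G ⧸ L, QuotientGroup.map L L (f ^ N : Monoid.End G)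
      (fun g hg => pow_mem_of f L h N g hg) x = x → x = 1 := by
    intro x hx
    have h5 := h3.elim (⟨x, hx⟩ : FixE (f ^ N : Monoid.End G) L (pow_mem_of f L h N))
      ⟨1, map_one _⟩
    exact congrArg Subtype.val h5
  rw [← QuotientGroup.eq_one_iff]
  refine h4 _ ?_
  change (((f ^ N : Monoid.End G) ((f ^ N : Monoid.End G) g) : G) : G ⧸ L) = _
  rw [← mk_pow f L h N g, ← mk_pow f L h N ((f ^ N : Monoid.End G) g), ← mk_pow f L h N g]
  have h5 := DFunLike.congr_fun hid (g : G ⧸ L)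
  rw [pow_add] at h5
  exact h5

/-- PART A for all subgroups of finite index. -/
theorem Deg.nilp_le {f : Monoid.End G} (hd : Deg G f ((0 : ℤ) : ℚ)) (hF : FAb G)
    (K : Subgroup G) (hK : K.index ≠ 0) :
    ∃ N : ℕ, ∀ g : G, (f ^ N : Monoid.End G) g ∈ K := by
  obtain ⟨L, hL, hLK⟩ := exists_finv_le hd.fg K hK
  have := hL.1
  obtain ⟨N, -, hN⟩ := hd.nilp hF L hL.2.1 (fun g hg => hL.2.2 f g hg)
  exact ⟨N, fun g => hLK (hN g)⟩

end Pool.ACH
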