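import Pool.Agent.Helper60.EN.Deg

/-!
Project EN (MP_9d9192_al): restriction to subgroups of finite index and the trace formula.
-/

set_option autoImplicit false

namespace Pool.ACH

variable {G : Type} [Group G] {P0 P1 P2 P3 : Type} [AddCommGroup P0] [AddCommGroup P1]
    [AddCommGroup P2] [AddCommGroup P3] [DistribMulAction G P0] [DistribMulAction G P1]
    [DistribMulAction G P2] [DistribMulAction G P3]

theorem inv_out {P : Type} [AddCommGroup P] [DistribMulAction G P] (H : Subgroup G)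
    (y : P →+ ℚ) (hy : Inv H y) (a : G) (p : P) :
    y (a⁻¹ • p) = y ((a : G ⧸ H).out⁻¹ • p) := by
  have h1 : ((a : G ⧸ H).out : G ⧸ H) = (a : G ⧸ H) := Quotient.out_eq' _
  have h2 : (a : G ⧸ H).out⁻¹ * a ∈ H := QuotientGroup.eq.1 h1
  have h3 := hy ⟨_, h2⟩ (a⁻¹ • p)
  change y (((a : G ⧸ H).out⁻¹ * a) • a⁻¹ • p) = y (a⁻¹ • p) at h3
  rw [smul_smul, mul_inv_cancel_right] at h3
  exact h3.symm

/-- The sum over the cosets of an `H`-invariant map. -/
theorem exists_norm {P : Type} [AddCommGroup P] [DistribMulAction G P] (H : Subgroup G)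
    [Fintype (G ⧸ H)] (y : P →+ ℚ) (hy : Inv H y) :
    ∃ Y : P →+ ℚ, Inv G Y ∧ ∀ p, Y p = ∑ q : G ⧸ H, y (q.out⁻¹ • p) := by
  refine ⟨∑ q : G ⧸ H, y.comp (DistribSMul.toAddMonoidHom P q.out⁻¹), ?_, ?_⟩
  · intro g p
    rw [AddMonoidHom.finsetSum_apply, AddMonoidHom.finsetSum_apply]
    change ∑ q : G ⧸ H, y (q.out⁻¹ • g • p) = ∑ q : G ⧸ H, y (q.out⁻¹ • p)
    rw [← Equiv.sum_comp (MulAction.toPerm g⁻¹ : Equiv.Perm (G ⧸ H))
      (fun q : G ⧸ H => y (q.out⁻¹ • p))]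
    refine Finset.sum_congr rfl fun q _ => ?_
    have h1 : (MulAction.toPerm g⁻¹ : Equiv.Perm (G ⧸ H)) q = ((g⁻¹ * q.out : G) : G ⧸ H) := by
      conv_lhs => rw [← QuotientGroup.out_eq' q]
      rfl
    rw [h1, ← inv_out H y hy, smul_smul, mul_inv_rev, inv_inv]
  · intro p
    rw [AddMonoidHom.finsetSum_apply]
    rfl

theorem PD3Data.nu_restrict (D : PD3Data G P0 P1 P2 P3) (H : Subgroup G) (hH : H.index ≠ 0) :
    ∃ (a : ℚ) (y : P2 →+ ℚ), a ≠ 0 ∧ Inv H y ∧
      ∀ p, D.nu p = a * (D.restrict H hH).nu p + y (D.d2 p) := by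
  obtain ⟨a, y, hy, h⟩ := (D.restrict H hH).nu_gen D.nu (fun g p => D.nu_smul (g : G) p)
  refine ⟨a, y, ?_, hy, h⟩
  rintro rfl
  have : H.FiniteIndex := ⟨hH⟩
  let _ : Fintype (G ⧸ H) := Subgroup.fintypeQuotientOfFiniteIndex
  obtain ⟨Y, hY, hYe⟩ := exists_norm H y hy
  have h1 : ((Fintype.card (G ⧸ H) : ℕ) : ℚ) = 0 := by
    refine D.nu_zero _ Y hY fun p => ?_
    rw [hYe]
    have h2 : ∀ q : G ⧸ H, y (q.out⁻¹ • D.d2 p) = D.nu p := by
      intro q
      have h3 := h (q.out⁻¹ • p)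
      rw [zero_mul, zero_add] at h3
      rw [← D.d2_smul, ← D.nu_smul q.out⁻¹ p]
      exact h3.symm
    rw [Finset.sum_congr rfl fun q _ => h2 q, Finset.sum_const, Finset.card_univ, nsmul_eq_mul]
  have h2 : Fintype.card (G ⧸ H) = 0 := by exact_mod_cast h1
  exact (Fintype.card_pos_iff.2 ⟨((1 : G) : G ⧸ H)⟩).ne' h2

/-- Restriction of a chain map. -/
noncomputable def CM.restrict {D : PD3Data G P0 P1 P2 P3} {f : G →* G} (E : CM D f)
    (H : Subgroup G) (hH : H.index ≠ 0) (h : ∀ g ∈ H, f g ∈ H) :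
    CM (D.restrict H hH) (resEnd f H h) where
  F0 := E.F0
  F1 := E.F1
  F2 := E.F2
  F3 := E.F3
  F0_smul g p := E.F0_smul g p
  F1_smul g p := E.F1_smul g p
  F2_smul g p := E.F2_smul g p
  F3_smul g p := E.F3_smul g p
  ε_F0 := E.ε_F0
  comm0 := E.comm0
  comm1 := E.comm1
  comm2 := E.comm2

theorem CM.restrict_hasDeg {D : PD3Data G P0 P1 P2 P3} {f : G →* G} {E : CM D f} {d : ℚ}
    (hE : E.HasDeg d) (H : Subgroup G) (hH : H.index ≠ 0) (h : ∀ g ∈ H, f g ∈ H) :
    (E.restrict H hH h).HasDeg d := by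
  obtain ⟨d', ω', hω', h'⟩ := (E.restrict H hH h).exists_hasDeg
  obtain ⟨ω, hω, he⟩ := hE
  obtain ⟨a, y, ha, hy, hν⟩ := D.nu_restrict H hH
  have h1 : ∀ p, (D.restrict H hH).nu (E.F3 p) =
      d' * (D.restrict H hH).nu p + ω' (D.d2 p) := h'
  have h2 : a * d' - d * a = 0 := by
    refine (D.restrict H hH).nu_zero _ (d • y + ω - a • ω' - y.comp E.F2) (fun g p => ?_)
      fun p => ?_
    · have e1 := hy g p
      have e2 := hω (g : G) p
      have e3 := hω' g p
      have e4 : y (E.F2 (g • p)) = y (E.F2 p) := by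
        have e5 := E.F2_smul (g : G) p
        change E.F2 (g • p) = f g • E.F2 p at e5
        rw [e5]
        exact hy ⟨f g, h g g.2⟩ (E.F2 p)
      have e2' : ω (g • p) = ω p := e2
      simp only [AddMonoidHom.sub_apply, AddMonoidHom.add_apply, AddMonoidHom.smul_apply,
        AddMonoidHom.comp_apply, e1, e2', e3, e4]
    · have e1 := he p
      have e2 := hν (E.F3 p)
      have e3 := hν p
      have e4 := h1 p
      rw [← E.comm2] at e2
      change (a * d' - d * a) * (D.restrict H hH).nu p =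
        (d • y + ω - a • ω' - y.comp E.F2) (D.d2 p)
      simp only [AddMonoidHom.sub_apply, AddMonoidHom.add_apply, AddMonoidHom.smul_apply,
        AddMonoidHom.comp_apply, smul_eq_mul]
      rw [e4] at e2
      rw [e2, e3] at e1
      linear_combination e1
  have h3 : d' = d := by
    have h4 : a * (d' - d) = 0 := by linear_combination h2
    rcases mul_eq_zero.1 h4 with h5 | h5
    · exact absurd h5 ha
    · linarith
  subst h3
  exact ⟨ω', hω', h'⟩

theorem Deg.restrict {f : G →* G} {d : ℚ} (hd : Deg G f d) (H : Subgroup G)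
    (hH : H.index ≠ 0) (h : ∀ g ∈ H, f g ∈ H) : Deg H (resEnd f H h) d := by
  obtain ⟨P0, P1, P2, P3, _, _, _, _, _, _, _, _, D, E, hE⟩ := hd
  exact ⟨P0, P1, P2, P3, _, _, _, _, _, _, _, _, D.restrict H hH, E.restrict H hH h,
    CM.restrict_hasDeg hE H hH h⟩

private theorem en_cob {L P0 P1 P2 P3 : Type} [Group L] [AddCommGroup P0]
    [AddCommGroup P1] [AddCommGroup P2] [AddCommGroup P3] [DistribMulAction L P0]
    [DistribMulAction L P1] [DistribMulAction L P2] [DistribMulAction L P3]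
    (D : PD3Data L P0 P1 P2 P3) {k : Type*} [AddCommGroup k] {ι : Type*} (s : Finset ι)
    (f : ι → (P2 →+ k)) (h : ∀ i ∈ s, D.Cob (f i)) : D.Cob (∑ i ∈ s, f i) := by
  classical
  induction s using Finset.induction_on with
  | empty => simpa using PD3Data.Cob.zero D
  | insert i s hi ih =>
    rw [Finset.sum_insert hi]
    exact PD3Data.Cob.add D (h i (Finset.mem_insert_self i s))
      (ih fun j hj => h j (Finset.mem_insert_of_mem hj))

/-- The Lefschetz number over one group, with the chain map acting through an endomorphism. -/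
theorem CM.lefschetz {L P0 P1 P2 P3 : Type} [Group L] [AddCommGroup P0]
    [AddCommGroup P1] [AddCommGroup P2] [AddCommGroup P3] [DistribMulAction L P0]
    [DistribMulAction L P1] [DistribMulAction L P2] [DistribMulAction L P3]
    {D : PD3Data L P0 P1 P2 P3} {θ : L →* L} (R : CM D θ) (d : ℚ) (hd : R.HasDeg d)
    (hZ : ¬ ∃ f : L →* Multiplicative ℤ, Function.Surjective f) :
    LinearMap.trace ℚ (IM L P0) (pullE θ R.F0 R.F0_smul)
      - LinearMap.trace ℚ (IM L P1) (pullE θ R.F1 R.F1_smul)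
      + LinearMap.trace ℚ (IM L P2) (pullE θ R.F2 R.F2_smul)
      - LinearMap.trace ℚ (IM L P3) (pullE θ R.F3 R.F3_smul) = 1 - d := by
  have hfg : Group.FG L := D.fg
  have := finite_IM D.b0
  have := finite_IM D.b1
  have := finite_IM D.b2
  have := finite_IM D.b3
  have h00 : ∀ (P : Type) [AddCommGroup P] [DistribMulAction L P] (x y : IM L P),
      x = y ↔ ∀ p, x.1 p = y.1 p := by
    intro P _ _ x y
    constructor
    · rintro rfl p
      rfl
    · intro h
      apply Subtype.ext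
      ext p
      exact h p
  let e : IM L P0 := ⟨(Int.castAddHom ℚ).comp D.ε, fun g p => by
    simp [D.ε_smul]⟩
  let ν : IM L P3 := ⟨D.nu, D.nu_smul⟩
  have he : ∀ p, e.1 p = (D.ε p : ℚ) := fun p => rfl
  have hν : ∀ p, ν.1 p = D.nu p := fun p => rfl
  refine lefschetzE (pull (MulEquiv.refl L) D.d0 D.d0_smul)
    (pull (MulEquiv.refl L) D.d1 D.d1_smul) (pull (MulEquiv.refl L) D.d2 D.d2_smul)
    (pullE θ R.F0 R.F0_smul) (pullE θ R.F1 R.F1_smul) (pullE θ R.F2 R.F2_smul)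
    (pullE θ R.F3 R.F3_smul) ?_ ?_ ?_ e ?_ ?_ ?_ ?_ ?_ ν ?_ ?_ _ ?_
  · intro x
    rw [h00]
    intro p
    rw [pull_apply, pullE_apply, pullE_apply, pull_apply, R.comm0]
  · intro x
    rw [h00]
    intro p
    rw [pull_apply, pullE_apply, pullE_apply, pull_apply, R.comm1]
  · intro x
    rw [h00]
    intro p
    rw [pull_apply, pullE_apply, pullE_apply, pull_apply, R.comm2]
  · intro h
    have h1 := he D.p0
    rw [h, D.ε_p0] at h1
    simp at h1
  · intro x
    constructor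
    · intro h
      have h1 : ∀ p, x.1 (D.d0 p) = 0 := fun p => (h00 _ _ _).1 h p
      refine ⟨x.1 D.p0, ?_⟩
      rw [h00]
      intro p
      rw [D.h0 x.1 h1 p]
      change x.1 D.p0 * e.1 p = _
      rw [he, zsmul_eq_mul, mul_comm]
    · rintro ⟨a, rfl⟩
      rw [h00]
      intro p
      rw [pull_apply]
      change a * e.1 (D.d0 p) = 0
      rw [he, D.ε_d0, Int.cast_zero, mul_zero]
  · rw [h00]
    intro p
    rw [pullE_apply, he, he, R.ε_F0]
  · intro x
    constructor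
    · intro h
      have h1 : ∀ p, x.1 (D.d1 p) = 0 := fun p => (h00 _ _ _).1 h p
      obtain ⟨β, B, hβ, hB, hx⟩ := D.exists_hom x.1 x.2 h1
      have hβ0 : ∀ g, β g = 0 := hom_rat_eq_zero hfg hZ β hβ
      refine ⟨⟨B, fun g p => by rw [hB, hβ0, smul_zero, add_zero]⟩, ?_⟩
      rw [h00]
      intro p
      rw [pull_apply]
      exact (hx p).symm
    · rintro ⟨y, rfl⟩
      rw [h00]
      intro p
      rw [pull_apply, pull_apply, D.d0_d1]
      simp
  · intro x
    constructor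
    · intro h
      have h1 : ∀ p, x.1 (D.d2 p) = 0 := fun p => (h00 _ _ _).1 h p
      obtain ⟨n, g, s, hs⟩ := D.chi_surj x.1 x.2 h1
      have h2 := en_cob D Finset.univ (fun i => D.chi (g i) (s i))
        (fun i _ => D.chi_rat (finite_abelianization hfg hZ) (g i) (s i))
      have h3 := PD3Data.Cob.add D hs h2
      rw [sub_add_cancel] at h3
      obtain ⟨u, hu, hx⟩ := h3
      refine ⟨⟨u, hu⟩, ?_⟩
      rw [h00]
      intro p
      rw [pull_apply]
      exact (hx p).symm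
    · rintro ⟨y, rfl⟩
      rw [h00]
      intro p
      rw [pull_apply, pull_apply, D.d1_d2]
      simp
  · intro x
    obtain ⟨a, ω2, hω, hx⟩ := D.nu_gen x.1 x.2
    refine ⟨a, ⟨ω2, hω⟩, ?_⟩
    rw [h00]
    intro p
    change x.1 p = a * ν.1 p + ω2 (D.d2 p)
    rw [hx, hν]
  · intro a y h
    refine D.nu_zero a y.1 y.2 fun p => ?_
    have h1 : a * ν.1 p = y.1 (D.d2 p) := (h00 _ _ _).1 h p
    rw [← hν, h1]
  · obtain ⟨ω, hω, hω2⟩ := hd
    refine ⟨⟨ω, hω⟩, ?_⟩
    rw [h00]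
    intro p
    rw [pullE_apply]
    exact hω2 p

/-- The number of fixed points on a finite quotient divides `1 - d`. -/
theorem Deg.fix {f : G →* G} {d : ℚ} (hd : Deg G f d) (hF : FAb G)
    (L : Subgroup G) [L.Normal] (hL : L.index ≠ 0) (h : ∀ g ∈ L, f g ∈ L) :
    ∃ n : ℤ, (n : ℚ) * Nat.card (FixE f L h) = 1 - d := by
  obtain ⟨P0, P1, P2, P3, _, _, _, _, _, _, _, _, D, E, hE⟩ := hd
  have h1 := CM.lefschetz (E.restrict L hL h) d (CM.restrict_hasDeg hE L hL h) (hF L hL)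
  obtain ⟨n0, e0⟩ := trace_pullE D.b0 f L hL h E.F0 E.F0_smul
  obtain ⟨n1, e1⟩ := trace_pullE D.b1 f L hL h E.F1 E.F1_smul
  obtain ⟨n2, e2⟩ := trace_pullE D.b2 f L hL h E.F2 E.F2_smul
  obtain ⟨n3, e3⟩ := trace_pullE D.b3 f L hL h E.F3 E.F3_smul
  refine ⟨n0 - n1 + n2 - n3, ?_⟩
  have h2 : (n0 : ℚ) * Nat.card (FixE f L h) - (n1 : ℚ) * Nat.card (FixE f L h)
      + (n2 : ℚ) * Nat.card (FixE f L h) - (n3 : ℚ) * Nat.card (FixE f L h)
      = 1 - d := by
    rw [← e0, ← e1, ← e2, ← e3]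
    exact h1
  push_cast
  rw [← h2]
  ring

/-- The degree is an integer. -/
theorem Deg.int {f : G →* G} {d : ℚ} (hd : Deg G f d) (hF : FAb G) : ∃ n : ℤ, d = n := by
  have hi : (⊤ : Subgroup G).index ≠ 0 := by rw [Subgroup.index_top]; exact one_ne_zero
  obtain ⟨n, hn⟩ := hd.fix hF ⊤ hi (fun g _ => Subgroup.mem_top _)
  refine ⟨1 - n * (Nat.card (FixE f (⊤ : Subgroup G) (fun g _ => Subgroup.mem_top _)) : ℤ), ?_⟩
  push_cast
  rw [hn]
  ring

theorem Deg.fix_dvd {f : G →* G} {d : ℤ} (hd : Deg G f d) (hF : FAb G)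
    (L : Subgroup G) [L.Normal] (hL : L.index ≠ 0) (h : ∀ g ∈ L, f g ∈ L) :
    ((Nat.card (FixE f L h) : ℕ) : ℤ) ∣ 1 - d := by
  obtain ⟨n, hn⟩ := hd.fix hF L hL h
  refine ⟨n, ?_⟩
  rw [mul_comm]
  exact_mod_cast hn.symm

theorem Deg.fix_pow_dvd {f : Monoid.End G} {d : ℤ} (hd : Deg G f d)
    (hF : FAb G) (L : Subgroup G) [L.Normal] (hL : L.index ≠ 0) (n : ℕ)
    (h : ∀ g ∈ L, (f ^ n : Monoid.End G) g ∈ L) :
    ((Nat.card (FixE (f ^ n : Monoid.End G) L h) : ℕ) : ℤ) ∣ 1 - d ^ n := by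
  have h1 : ∀ x : ℚ, x = ((d ^ n : ℤ) : ℚ) → Deg G (f ^ n : Monoid.End G) x →
      Deg G (f ^ n : Monoid.End G) ((d ^ n : ℤ) : ℚ) := by
    rintro x rfl hx
    exact hx
  exact (h1 _ (by push_cast; rfl) (hd.pow n)).fix_dvd hF L hL h

end Pool.ACH
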