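import Pool.Agent.Helper60.EN.Res

/-!
Project EN (MP_9d9192_al): idempotent integral matrices which are congruent modulo two have the same
trace; the trace of an element outside a subgroup of index two on the invariants of a projective
module is zero.
-/

set_option autoImplicit false

namespace Pool.ACH

theorem trace_idem {J : Type} [Fintype J] [DecidableEq J] (A B C : Matrix J J ℤ)
    (hA : A * A = A) (hB : B * B = B) (hC : A = B + 2 • C) : A.trace = B.trace := by
  obtain ⟨u, hu⟩ : ∃ u, u = A * B + (1 - A) * (1 - B) := ⟨_, rfl⟩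
  have h1 : A * u = A * B := by
    have h3 : A * (A * B + (1 - A) * (1 - B)) = A * A * B + (A - A * A) * (1 - B) := by
      noncomm_ring
    rw [hu, h3, hA, sub_self, zero_mul, add_zero]
  have h2 : u * B = A * B := by
    have h3 : (A * B + (1 - A) * (1 - B)) * B = A * (B * B) + (1 - A) * (B - B * B) := by
      noncomm_ring
    rw [hu, h3, hB, sub_self, mul_zero, add_zero]
  have h3 : u = 1 + (2 : ℤ) • ((1 - 2 • A) * C) := by
    have h4 : B = A - 2 • C := by rw [hC, add_sub_cancel_right]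
    rw [hu, h4]
    have h5 : A * (A - 2 • C) + (1 - A) * (1 - (A - 2 • C)) =
        A * A + A * A - A - A + 1 + 2 • ((1 - 2 • A) * C) := by
      noncomm_ring
    rw [h5, hA]
    simp
  have h4 : u.det ≠ 0 := by
    intro h0
    have h5 : (Int.castRingHom (ZMod 2)) u.det = 0 := by rw [h0, map_zero]
    rw [RingHom.map_det] at h5
    have h6 : (Int.castRingHom (ZMod 2)).mapMatrix u = 1 := by
      rw [h3, map_add, map_one, ← Int.cast_smul_eq_zsmul ℤ]
      have h7 : (Int.castRingHom (ZMod 2)).mapMatrix (((2 : ℤ) : ℤ) • ((1 - 2 • A) * C)) = 0 := by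
        ext i j
        rw [RingHom.mapMatrix_apply, Matrix.map_apply, Matrix.smul_apply, smul_eq_mul, map_mul]
        have h8 : (Int.castRingHom (ZMod 2)) (2 : ℤ) = 0 := by decide
        rw [h8, zero_mul]
        rfl
      simp only [Int.cast_id] at h7 ⊢
      rw [h7, add_zero]
    rw [h6, Matrix.det_one] at h5
    exact one_ne_zero h5
  have h5 : u.det * B.trace = u.det * A.trace := by
    have e1 : (u.adjugate * (u * B)).trace = u.det * B.trace := by
      rw [← mul_assoc, Matrix.adjugate_mul, Matrix.smul_mul, one_mul, Matrix.trace_smul,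
        smul_eq_mul]
    have e2 : (u.adjugate * (A * u)).trace = u.det * A.trace := by
      rw [Matrix.trace_mul_comm, mul_assoc, Matrix.mul_adjugate, Matrix.mul_smul, mul_one,
        Matrix.trace_smul, smul_eq_mul]
    rw [← e1, ← e2, h1, h2]
  exact (mul_left_cancel₀ h4 h5).symm

variable {G : Type} [Group G]

open Classical in
/-- The character with kernel `N`. -/
noncomputable def sgn (N : Subgroup G) (g : G) : ℤ := if g ∈ N then 1 else -1

theorem sgn_mul (N : Subgroup G) (hN : N.index = 2) (g h : G) :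
    sgn N (g * h) = sgn N g * sgn N h := by
  classical
  unfold sgn
  have h1 := Subgroup.mul_mem_iff_of_index_two hN (a := g) (b := h)
  by_cases hg : g ∈ N <;> by_cases hh : h ∈ N
  · rw [if_pos hg, if_pos hh, if_pos (h1.2 ⟨fun _ => hh, fun _ => hg⟩)]
    rfl
  · rw [if_pos hg, if_neg hh, if_neg fun h2 => hh ((h1.1 h2).1 hg)]
    rfl
  · rw [if_neg hg, if_pos hh, if_neg fun h2 => hg ((h1.1 h2).2 hh)]
    rfl
  · rw [if_neg hg, if_neg hh, if_pos (h1.2 ⟨fun h2 => absurd h2 hg, fun h2 => absurd h2 hh⟩)]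
    rfl

section

variable {P : Type} [AddCommGroup P] [DistribMulAction G P]

/-- `p ↦ Σ_g φ_j(g⁻¹ p)`. -/
noncomputable def aj (b : DB G P) (j : b.J) : P →+ ℤ := tw (b.φ j) (b.fs j) (fun _ => (1 : ℤ))

/-- `p ↦ Σ_g sgn(g) φ_j(g⁻¹ p)`. -/
noncomputable def bj (b : DB G P) (N : Subgroup G) (j : b.J) : P →+ ℤ :=
  tw (b.φ j) (b.fs j) (sgn N)

theorem aj_inv (b : DB G P) (j : b.J) (g : G) (p : P) : aj b j (g • p) = aj b j p :=
  tw_inv _ _ _ _ _

theorem bj_inv (b : DB G P) (N : Subgroup G) (hN : N.index = 2) (j : b.J) (g : G) (p : P) :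
    bj b N j (g • p) = sgn N g * bj b N j p := by
  unfold bj
  rw [tw_smul]
  have h1 : (fun h => sgn N (g * h)) = fun h => sgn N g * sgn N h := by
    funext h
    exact sgn_mul N hN g h
  rw [h1]
  exact (map_tw (AddMonoidHom.mulLeft (sgn N g)) (b.φ j) (b.fs j) (sgn N) p).symm

theorem expand_inv' (b : DB G P) {k : Type*} [CommRing k] (ω : P →+ k)
    (hω : ∀ (g : G) (p : P), ω (g • p) = ω p) (p : P) :
    ω p = ∑ j, ω (b.e j) * ((aj b j p : ℤ) : k) := by
  rw [b.expand_inv ω hω p]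
  refine Finset.sum_congr rfl fun j _ => ?_
  have h := map_tw ((AddMonoidHom.mulLeft (ω (b.e j))).comp (Int.castAddHom k)) (b.φ j) (b.fs j)
    (fun _ : G => (1 : ℤ)) p
  simp only [AddMonoidHom.comp_apply, AddMonoidHom.coe_mulLeft, Int.coe_castAddHom,
    Int.cast_one, mul_one] at h
  exact h.symm

theorem expand_tw' (b : DB G P) (N : Subgroup G) {k : Type*} [CommRing k] (ω : P →+ k)
    (hω : ∀ (g : G) (p : P), ω (g • p) = ((sgn N g : ℤ) : k) * ω p) (p : P) :
    ω p = ∑ j, ω (b.e j) * ((bj b N j p : ℤ) : k) := by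
  rw [b.expand ω p]
  refine Finset.sum_congr rfl fun j _ => ?_
  have h := map_tw ((AddMonoidHom.mulLeft (ω (b.e j))).comp (Int.castAddHom k)) (b.φ j) (b.fs j)
    (sgn N) p
  simp only [AddMonoidHom.comp_apply, AddMonoidHom.coe_mulLeft, Int.coe_castAddHom] at h
  have h1 : (fun g => ω (g • b.e j)) = fun g => ω (b.e j) * ((sgn N g : ℤ) : k) := by
    funext g
    rw [hω, mul_comm]
  rw [h1]
  exact h.symm

theorem trace_aj_bj (b : DB G P) (N : Subgroup G) (hN : N.index = 2) :
    ∑ j, aj b j (b.e j) = ∑ j, bj b N j (b.e j) := by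
  classical
  let A : Matrix b.J b.J ℤ := fun i j => aj b i (b.e j)
  let B : Matrix b.J b.J ℤ := fun i j => bj b N i (b.e j)
  let ind : G → ℤ := fun g => if g ∈ N then 0 else 1
  let C : Matrix b.J b.J ℤ := fun i j => tw (b.φ i) (b.fs i) ind (b.e j)
  have hA : A * A = A := by
    ext i j
    rw [Matrix.mul_apply]
    exact (expand_inv' b (aj b i) (aj_inv b i) (b.e j)).symm
  have hB : B * B = B := by
    ext i j
    rw [Matrix.mul_apply]
    exact (expand_tw' b N (bj b N i) (bj_inv b N hN i) (b.e j)).symm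
  have hC : A = B + 2 • C := by
    ext i j
    rw [Matrix.add_apply, Matrix.smul_apply]
    change tw (b.φ i) (b.fs i) (fun _ => (1 : ℤ)) (b.e j) =
      tw (b.φ i) (b.fs i) (sgn N) (b.e j) + 2 • tw (b.φ i) (b.fs i) ind (b.e j)
    have h1 : (fun _ : G => (1 : ℤ)) = fun g => (sgn N g + ind g) + ind g := by
      funext g
      by_cases hg : g ∈ N
      · simp [sgn, ind, hg]
      · simp [sgn, ind, hg]
    rw [h1, tw_add, tw_add, AddMonoidHom.add_apply, AddMonoidHom.add_apply, two_smul, add_assoc]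
  exact trace_idem A B C hA hB hC

/-- The trace of an element outside a subgroup of index two is zero. -/
theorem trace_swap (b : DB G P) (N : Subgroup G) (hN : N.index = 2) (t : G) (ht : t ∉ N)
    (θ : N →* N) (F : P →+ P) (hF : ∀ (g : N) (p : P), F (g • p) = θ g • F p)
    (hFt : ∀ p, F p = t • p) : LinearMap.trace ℚ (IM N P) (pullE θ F hF) = 0 := by
  classical
  have hNn : N.Normal := Subgroup.normal_of_index_eq_two hN
  have hN0 : N.index ≠ 0 := by rw [hN]; exact two_ne_zero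
  obtain ⟨bN⟩ := b.restrict N hN0
  have := finite_IM bN
  have hst : sgn N t = -1 := by simp [sgn, ht]
  have htt : t * t ∈ N := (Subgroup.mul_mem_iff_of_index_two hN).2 Iff.rfl
  -- the two projections
  have hsq : ∀ (ω : IM N P) (p : P), ω.1 (t • t • p) = ω.1 p := by
    intro ω p
    rw [smul_smul]
    exact ω.2 ⟨t * t, htt⟩ p
  have htg : ∀ (ω : IM N P) (g : G) (p : P), g ∈ N → ω.1 (t • g • p) = ω.1 (t • p) := by
    intro ω g p hg
    have h1 : t * g * t⁻¹ ∈ N := hNn.conj_mem g hg t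
    have h2 := ω.2 ⟨_, h1⟩ (t • p)
    change ω.1 ((t * g * t⁻¹) • t • p) = ω.1 (t • p) at h2
    rw [smul_smul, inv_mul_cancel_right, mul_smul] at h2
    exact h2
  have hg1 : ∀ (ω : IM N P) (g : G) (p : P), g ∉ N → ω.1 (g • p) = ω.1 (t • p) := by
    intro ω g p hg
    have h1 : g * t⁻¹ ∈ N := by
      rw [Subgroup.mul_mem_iff_of_index_two hN]
      exact ⟨fun h2 => absurd h2 hg, fun h2 => absurd (N.inv_mem_iff.1 h2) ht⟩
    have h2 := ω.2 ⟨_, h1⟩ (t • p)
    change ω.1 ((g * t⁻¹) • t • p) = ω.1 (t • p) at h2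
    rw [smul_smul, inv_mul_cancel_right] at h2
    exact h2
  have hg2 : ∀ (ω : IM N P) (g : G) (p : P), g ∉ N → ω.1 (t • g • p) = ω.1 p := by
    intro ω g p hg
    have h1 : t * g ∈ N := by
      rw [Subgroup.mul_mem_iff_of_index_two hN]
      exact ⟨fun h2 => absurd h2 ht, fun h2 => absurd h2 hg⟩
    rw [smul_smul]
    exact ω.2 ⟨_, h1⟩ p
  let T : P →+ P := DistribSMul.toAddMonoidHom P t
  have hplus : ∀ (ω : IM N P) (g : G) (p : P),
      (ω.1 + ω.1.comp T) (g • p) = (ω.1 + ω.1.comp T) p := by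
    intro ω g p
    change ω.1 (g • p) + ω.1 (t • g • p) = ω.1 p + ω.1 (t • p)
    by_cases hg : g ∈ N
    · rw [htg ω g p hg]
      congr 1
      exact ω.2 ⟨g, hg⟩ p
    · rw [hg1 ω g p hg, hg2 ω g p hg, add_comm]
  have hminus : ∀ (ω : IM N P) (g : G) (p : P),
      (ω.1 - ω.1.comp T) (g • p) = ((sgn N g : ℤ) : ℚ) * (ω.1 - ω.1.comp T) p := by
    intro ω g p
    change ω.1 (g • p) - ω.1 (t • g • p) = ((sgn N g : ℤ) : ℚ) * (ω.1 p - ω.1 (t • p))
    by_cases hg : g ∈ N
    · have h1 : sgn N g = 1 := by simp [sgn, hg]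
      have h2 : ω.1 (g • p) = ω.1 p := ω.2 ⟨g, hg⟩ p
      rw [htg ω g p hg, h1, h2, Int.cast_one, one_mul]
    · have h1 : sgn N g = -1 := by simp [sgn, hg]
      rw [hg1 ω g p hg, hg2 ω g p hg, h1]
      push_cast
      ring
  -- the vectors
  let va : b.J → IM N P := fun j => ⟨(Int.castAddHom ℚ).comp (aj b j), fun g p => by
    change ((aj b j ((g : G) • p) : ℤ) : ℚ) = ((aj b j p : ℤ) : ℚ)
    rw [aj_inv]⟩
  let vb : b.J → IM N P := fun j => ⟨(Int.castAddHom ℚ).comp (bj b N j), fun g p => by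
    change ((bj b N j ((g : G) • p) : ℤ) : ℚ) = ((bj b N j p : ℤ) : ℚ)
    rw [bj_inv b N hN]
    have h1 : sgn N (g : G) = 1 := by simp [sgn]
    rw [h1, one_mul]⟩
  let la : b.J → (IM N P →ₗ[ℚ] ℚ) := fun j =>
    { toFun := fun ω => (1 / 2 : ℚ) * (ω.1 (b.e j) + ω.1 (t • b.e j))
      map_add' := fun x y => by
        change (1 / 2 : ℚ) * ((x.1 (b.e j) + y.1 (b.e j)) + (x.1 (t • b.e j) + y.1 (t • b.e j))) =
          _
        ring
      map_smul' := fun c x => by
        change (1 / 2 : ℚ) * (c * x.1 (b.e j) + c * x.1 (t • b.e j)) =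
          c * ((1 / 2 : ℚ) * (x.1 (b.e j) + x.1 (t • b.e j)))
        ring }
  let lb : b.J → (IM N P →ₗ[ℚ] ℚ) := fun j =>
    { toFun := fun ω => (1 / 2 : ℚ) * (ω.1 (b.e j) - ω.1 (t • b.e j))
      map_add' := fun x y => by
        change (1 / 2 : ℚ) * ((x.1 (b.e j) + y.1 (b.e j)) - (x.1 (t • b.e j) + y.1 (t • b.e j))) =
          _
        ring
      map_smul' := fun c x => by
        change (1 / 2 : ℚ) * (c * x.1 (b.e j) - c * x.1 (t • b.e j)) =
          c * ((1 / 2 : ℚ) * (x.1 (b.e j) - x.1 (t • b.e j)))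
        ring }
  have hT : pullE θ F hF = ∑ j, ((la j).smulRight (va j) - (lb j).smulRight (vb j)) := by
    apply LinearMap.ext
    intro ω
    apply Subtype.ext
    ext p
    have h1 : (∑ j, ((la j).smulRight (va j) - (lb j).smulRight (vb j))) ω =
        ∑ j, (la j ω • va j - lb j ω • vb j) := by
      rw [LinearMap.sum_apply]
      rfl
    rw [h1, pullE_apply, hFt]
    have h2 : ((∑ j, (la j ω • va j - lb j ω • vb j) : IM N P) : P →+ ℚ) p =
        ∑ j, (la j ω * ((aj b j p : ℤ) : ℚ) - lb j ω * ((bj b N j p : ℤ) : ℚ)) := by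
      rw [Submodule.coe_sum, AddMonoidHom.finsetSum_apply]
      rfl
    rw [h2, Finset.sum_sub_distrib]
    have h3 := expand_inv' b (ω.1 + ω.1.comp T) (hplus ω) p
    have h4 := expand_tw' b N (ω.1 - ω.1.comp T) (hminus ω) p
    have h5 : ∑ j, la j ω * ((aj b j p : ℤ) : ℚ) =
        (1 / 2 : ℚ) * ∑ j, (ω.1 + ω.1.comp T) (b.e j) * ((aj b j p : ℤ) : ℚ) := by
      rw [Finset.mul_sum]
      refine Finset.sum_congr rfl fun j _ => ?_
      rw [← mul_assoc]
      rfl
    have h6 : ∑ j, lb j ω * ((bj b N j p : ℤ) : ℚ) =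
        (1 / 2 : ℚ) * ∑ j, (ω.1 - ω.1.comp T) (b.e j) * ((bj b N j p : ℤ) : ℚ) := by
      rw [Finset.mul_sum]
      refine Finset.sum_congr rfl fun j _ => ?_
      rw [← mul_assoc]
      rfl
    rw [h5, h6, ← h3, ← h4]
    change ω.1 (t • p) = 1 / 2 * (ω.1 p + ω.1 (t • p)) - 1 / 2 * (ω.1 p - ω.1 (t • p))
    ring
  rw [hT, map_sum]
  have h0 : ∀ j, LinearMap.trace ℚ (IM N P) ((la j).smulRight (va j) - (lb j).smulRight (vb j)) =
      la j (va j) - lb j (vb j) := by
    intro j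
    have e1 := (LinearMap.trace ℚ (IM N P)).map_sub ((la j).smulRight (va j))
      ((lb j).smulRight (vb j))
    rw [LinearMap.trace_smulRight, LinearMap.trace_smulRight] at e1
    exact e1
  rw [Finset.sum_congr rfl fun j _ => h0 j]
  have h1 : ∀ j, la j (va j) = ((aj b j (b.e j) : ℤ) : ℚ) := by
    intro j
    change (1 / 2 : ℚ) * (((aj b j (b.e j) : ℤ) : ℚ) + ((aj b j (t • b.e j) : ℤ) : ℚ)) = _
    rw [aj_inv]
    ring
  have h2 : ∀ j, lb j (vb j) = ((bj b N j (b.e j) : ℤ) : ℚ) := by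
    intro j
    change (1 / 2 : ℚ) * (((bj b N j (b.e j) : ℤ) : ℚ) - ((bj b N j (t • b.e j) : ℤ) : ℚ)) = _
    rw [bj_inv b N hN, hst]
    push_cast
    ring
  rw [Finset.sum_sub_distrib, Finset.sum_congr rfl fun j _ => h1 j,
    Finset.sum_congr rfl fun j _ => h2 j, ← Int.cast_sum, ← Int.cast_sum, trace_aj_bj b N hN,
    sub_self]

end

end Pool.ACH
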